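import Pool.Agent.Helper58.DH.Goals

/-!
# Project DH (MP_06d934_gt): C_POS, the sign of `qc`
-/

set_option autoImplicit false
set_option maxRecDepth 10000

namespace Pool.Agent.Helper58.DH

theorem qc_bd (A B M F : ℝ) : qc (A + B + 2 * F) (B + F) B (B + M) =
    8 * A ^ 5 * B * M * F + 2 * A ^ 5 * M ^ 3 + 8 * A ^ 5 * M * F ^ 2 + 16 * A ^ 4 * B ^ 4 + 48
    * A ^ 4 * B ^ 3 * M + 48 * A ^ 4 * B ^ 3 * F + 48 * A ^ 4 * B ^ 2 * M ^ 2 + 200 * A ^ 4 * B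
    ^ 2 * M * F + 32 * A ^ 4 * B ^ 2 * F ^ 2 + 40 * A ^ 4 * B * M ^ 3 + 128 * A ^ 4 * B * M ^ 2
    * F + 224 * A ^ 4 * B * M * F ^ 2 + 15 * A ^ 4 * M ^ 4 + 30 * A ^ 4 * M ^ 3 * F + 84 * A ^ 4
    * M ^ 2 * F ^ 2 + 72 * A ^ 4 * M * F ^ 3 + 128 * A ^ 3 * B ^ 5 + 528 * A ^ 3 * B ^ 4 * M +
    416 * A ^ 3 * B ^ 4 * F + 752 * A ^ 3 * B ^ 3 * M ^ 2 + 1752 * A ^ 3 * B ^ 3 * M * F + 480 *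
    A ^ 3 * B ^ 3 * F ^ 2 + 522 * A ^ 3 * B ^ 2 * M ^ 3 + 2008 * A ^ 3 * B ^ 2 * M ^ 2 * F +
    2232 * A ^ 3 * B ^ 2 * M * F ^ 2 + 192 * A ^ 3 * B ^ 2 * F ^ 3 + 172 * A ^ 3 * B * M ^ 4 +
    998 * A ^ 3 * B * M ^ 3 * F + 1784 * A ^ 3 * B * M ^ 2 * F ^ 2 + 1272 * A ^ 3 * B * M * F ^
    3 + 18 * A ^ 3 * M ^ 5 + 198 * A ^ 3 * M ^ 4 * F + 416 * A ^ 3 * M ^ 3 * F ^ 2 + 568 * A ^ 3
    * M ^ 2 * F ^ 3 + 256 * A ^ 3 * M * F ^ 4 + 272 * A ^ 2 * B ^ 6 + 1520 * A ^ 2 * B ^ 5 * M +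
    1152 * A ^ 2 * B ^ 5 * F + 2904 * A ^ 2 * B ^ 4 * M ^ 2 + 5984 * A ^ 2 * B ^ 4 * M * F +
    1888 * A ^ 2 * B ^ 4 * F ^ 2 + 2630 * A ^ 2 * B ^ 3 * M ^ 3 + 9544 * A ^ 2 * B ^ 3 * M ^ 2 *
    F + 9472 * A ^ 2 * B ^ 3 * M * F ^ 2 + 1424 * A ^ 2 * B ^ 3 * F ^ 3 + 1162 * A ^ 2 * B ^ 2 *
    M ^ 4 + 6858 * A ^ 2 * B ^ 2 * M ^ 3 * F + 11840 * A ^ 2 * B ^ 2 * M ^ 2 * F ^ 2 + 7512 * A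
    ^ 2 * B ^ 2 * M * F ^ 3 + 416 * A ^ 2 * B ^ 2 * F ^ 4 + 202 * A ^ 2 * B * M ^ 5 + 2274 * A ^
    2 * B * M ^ 4 * F + 5852 * A ^ 2 * B * M ^ 3 * F ^ 2 + 6600 * A ^ 2 * B * M ^ 2 * F ^ 3 +
    2960 * A ^ 2 * B * M * F ^ 4 + 268 * A ^ 2 * M ^ 5 * F + 1036 * A ^ 2 * M ^ 4 * F ^ 2 + 1632
    * A ^ 2 * M ^ 3 * F ^ 3 + 1424 * A ^ 2 * M ^ 2 * F ^ 4 + 448 * A ^ 2 * M * F ^ 5 + 160 * A *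
    B ^ 7 + 1440 * A * B ^ 6 * M + 1008 * A * B ^ 6 * F + 3680 * A * B ^ 5 * M ^ 2 + 7488 * A *
    B ^ 5 * M * F + 2400 * A * B ^ 5 * F ^ 2 + 4356 * A * B ^ 4 * M ^ 3 + 15872 * A * B ^ 4 * M
    ^ 2 * F + 15672 * A * B ^ 4 * M * F ^ 2 + 2800 * A * B ^ 4 * F ^ 3 + 2668 * A * B ^ 3 * M ^
    4 + 15250 * A * B ^ 3 * M ^ 3 * F + 27048 * A * B ^ 3 * M ^ 2 * F ^ 2 + 16984 * A * B ^ 3 *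
    M * F ^ 3 + 1632 * A * B ^ 3 * F ^ 4 + 814 * A * B ^ 2 * M ^ 5 + 7242 * A * B ^ 2 * M ^ 4 *
    F + 20016 * A * B ^ 2 * M ^ 3 * F ^ 2 + 22712 * A * B ^ 2 * M ^ 2 * F ^ 3 + 10080 * A * B ^
    2 * M * F ^ 4 + 384 * A * B ^ 2 * F ^ 5 + 96 * A * B * M ^ 6 + 1552 * A * B * M ^ 5 * F +
    6680 * A * B * M ^ 4 * F ^ 2 + 11480 * A * B * M ^ 3 * F ^ 3 + 9440 * A * B * M ^ 2 * F ^ 4
    + 3104 * A * B * M * F ^ 5 + 96 * A * M ^ 6 * F + 800 * A * M ^ 5 * F ^ 2 + 1992 * A * M ^ 4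
    * F ^ 3 + 2432 * A * M ^ 3 * F ^ 4 + 1568 * A * M ^ 2 * F ^ 5 + 384 * A * M * F ^ 6 + 400 *
    B ^ 7 * M + 160 * B ^ 7 * F + 1480 * B ^ 6 * M ^ 2 + 2840 * B ^ 6 * M * F + 736 * B ^ 6 * F
    ^ 2 + 2210 * B ^ 5 * M ^ 3 + 8144 * B ^ 5 * M ^ 2 * F + 8024 * B ^ 5 * M * F ^ 2 + 1376 * B
    ^ 5 * F ^ 3 + 1663 * B ^ 4 * M ^ 4 + 10000 * B ^ 4 * M ^ 3 * F + 18460 * B ^ 4 * M ^ 2 * F ^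
    2 + 11840 * B ^ 4 * M * F ^ 3 + 1312 * B ^ 4 * F ^ 4 + 630 * B ^ 3 * M ^ 5 + 6190 * B ^ 3 *
    M ^ 4 * F + 18196 * B ^ 3 * M ^ 3 * F ^ 2 + 21800 * B ^ 3 * M ^ 2 * F ^ 3 + 9936 * B ^ 3 * M
    * F ^ 4 + 640 * B ^ 3 * F ^ 5 + 96 * B ^ 2 * M ^ 6 + 1892 * B ^ 2 * M ^ 5 * F + 8700 * B ^ 2
    * M ^ 4 * F ^ 2 + 16424 * B ^ 2 * M ^ 3 * F ^ 3 + 14064 * B ^ 2 * M ^ 2 * F ^ 4 + 4768 * B ^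
    2 * M * F ^ 5 + 128 * B ^ 2 * F ^ 6 + 224 * B * M ^ 6 * F + 1888 * B * M ^ 5 * F ^ 2 + 5448
    * B * M ^ 4 * F ^ 3 + 7248 * B * M ^ 3 * F ^ 4 + 4704 * B * M ^ 2 * F ^ 5 + 1216 * B * M * F
    ^ 6 + 128 * M ^ 6 * F ^ 2 + 640 * M ^ 5 * F ^ 3 + 1248 * M ^ 4 * F ^ 4 + 1248 * M ^ 3 * F ^
    5 + 640 * M ^ 2 * F ^ 6 + 128 * M * F ^ 7 := by
  unfold qc
  ring

theorem qc_c (p q m E : ℝ) : qc (p + q + 2 * E) (q + E) (q + 2 * E) (q + m + 4 * E) =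
    -2 * p ^ 5 * ((m + 2 * E) * (4 * (q + E) * E - (m + 2 * E) ^ 2)) + p ^ 4 *
    (16 * q ^ 4 + 48 * q ^ 3 * m + 176 * q ^ 3 * E + 48 * q ^ 2 * m ^ 2 + 280 * q ^ 2 * m * E +
    496 * q ^ 2 * E ^ 2 + 40 * q * m ^ 3 + 304 * q * m ^ 2 * E + 656 * q * m * E ^ 2 + 480 * q *
    E ^ 3 + 15 * m ^ 4 + 190 * m ^ 3 * E + 800 * m ^ 2 * E ^ 2 + 1280 * m * E ^ 3 + 640 * E ^ 4) +
    (128 * p ^ 3 * q ^ 5 + 528 * p ^ 3 * q ^ 4 * m + 2048 * p ^ 3 * q ^ 4 * E + 752 * p ^ 3 * q ^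
    3 * m ^ 2 + 5864 * p ^ 3 * q ^ 3 * m * E + 11632 * p ^ 3 * q ^ 3 * E ^ 2 + 522 * p ^ 3 * q ^
    2 * m ^ 3 + 6020 * p ^ 3 * q ^ 2 * m ^ 2 * E + 22912 * p ^ 3 * q ^ 2 * m * E ^ 2 + 29888 * p
    ^ 3 * q ^ 2 * E ^ 3 + 172 * p ^ 3 * q * m ^ 4 + 2786 * p ^ 3 * q * m ^ 3 * E + 15876 * p ^ 3
    * q * m ^ 2 * E ^ 2 + 38784 * p ^ 3 * q * m * E ^ 3 + 36032 * p ^ 3 * q * E ^ 4 + 18 * p ^ 3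
    * m ^ 5 + 446 * p ^ 3 * m ^ 4 * E + 3836 * p ^ 3 * m ^ 3 * E ^ 2 + 14896 * p ^ 3 * m ^ 2 * E
    ^ 3 + 26816 * p ^ 3 * m * E ^ 4 + 18688 * p ^ 3 * E ^ 5 + 272 * p ^ 2 * q ^ 6 + 1520 * p ^ 2
    * q ^ 5 * m + 5920 * p ^ 2 * q ^ 5 * E + 2904 * p ^ 2 * q ^ 4 * m ^ 2 + 24000 * p ^ 2 * q ^
    4 * m * E + 48640 * p ^ 2 * q ^ 4 * E ^ 2 + 2630 * p ^ 2 * q ^ 3 * m ^ 3 + 33980 * p ^ 2 * q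
    ^ 3 * m ^ 2 * E + 142744 * p ^ 2 * q ^ 3 * m * E ^ 2 + 197280 * p ^ 2 * q ^ 3 * E ^ 3 + 1162
    * p ^ 2 * q ^ 2 * m ^ 4 + 21350 * p ^ 2 * q ^ 2 * m ^ 3 * E + 140660 * p ^ 2 * q ^ 2 * m ^ 2
    * E ^ 2 + 399392 * p ^ 2 * q ^ 2 * m * E ^ 3 + 419392 * p ^ 2 * q ^ 2 * E ^ 4 + 202 * p ^ 2
    * q * m ^ 5 + 5426 * p ^ 2 * q * m ^ 4 * E + 52808 * p ^ 2 * q * m ^ 3 * E ^ 2 + 240136 * p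
    ^ 2 * q * m ^ 2 * E ^ 3 + 521536 * p ^ 2 * q * m * E ^ 4 + 442752 * p ^ 2 * q * E ^ 5 + 244
    * p ^ 2 * m ^ 5 * E + 4812 * p ^ 2 * m ^ 4 * E ^ 2 + 36824 * p ^ 2 * m ^ 3 * E ^ 3 + 137056
    * p ^ 2 * m ^ 2 * E ^ 4 + 249728 * p ^ 2 * m * E ^ 5 + 180736 * p ^ 2 * E ^ 6 + 160 * p * q
    ^ 7 + 1440 * p * q ^ 6 * m + 5200 * p * q ^ 6 * E + 3680 * p * q ^ 5 * m ^ 2 + 30592 * p * q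
    ^ 5 * m * E + 60192 * p * q ^ 5 * E ^ 2 + 4356 * p * q ^ 4 * m ^ 3 + 58680 * p * q ^ 4 * m ^
    2 * E + 252840 * p * q ^ 4 * m * E ^ 2 + 348960 * p * q ^ 4 * E ^ 3 + 2668 * p * q ^ 3 * m ^
    4 + 51462 * p * q ^ 3 * m ^ 3 * E + 355788 * p * q ^ 3 * m ^ 2 * E ^ 2 + 1051056 * p * q ^ 3
    * m * E ^ 3 + 1125824 * p * q ^ 3 * E ^ 4 + 814 * p * q ^ 2 * m ^ 5 + 21554 * p * q ^ 2 * m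
    ^ 4 * E + 214884 * p * q ^ 2 * m ^ 3 * E ^ 2 + 1018848 * p * q ^ 2 * m ^ 2 * E ^ 3 + 2316992
    * p * q ^ 2 * m * E ^ 4 + 2039296 * p * q ^ 2 * E ^ 5 + 96 * p * q * m ^ 6 + 3664 * p * q *
    m ^ 5 * E + 52168 * p * q * m ^ 4 * E ^ 2 + 365400 * p * q * m ^ 3 * E ^ 3 + 1352112 * p * q
    * m ^ 2 * E ^ 4 + 2539136 * p * q * m * E ^ 5 + 1913344 * p * q * E ^ 6 + 96 * p * m ^ 6 * E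
    + 2864 * p * m ^ 5 * E ^ 2 + 33400 * p * m ^ 4 * E ^ 3 + 197808 * p * m ^ 3 * E ^ 4 + 633216
    * p * m ^ 2 * E ^ 5 + 1046528 * p * m * E ^ 6 + 703488 * p * E ^ 7 + 400 * q ^ 7 * m + 960 *
    q ^ 7 * E + 1480 * q ^ 6 * m ^ 2 + 11560 * q ^ 6 * m * E + 19248 * q ^ 6 * E ^ 2 + 2210 * q
    ^ 5 * m ^ 3 + 30236 * q ^ 5 * m ^ 2 * E + 127632 * q ^ 5 * m * E ^ 2 + 162976 * q ^ 5 * E ^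
    3 + 1663 * q ^ 4 * m ^ 4 + 34116 * q ^ 4 * m ^ 3 * E + 244076 * q ^ 4 * m ^ 2 * E ^ 2 +
    725600 * q ^ 4 * m * E ^ 3 + 753088 * q ^ 4 * E ^ 4 + 630 * q ^ 3 * m ^ 5 + 18750 * q ^ 3 *
    m ^ 4 * E + 201112 * q ^ 3 * m ^ 3 * E ^ 2 + 999304 * q ^ 3 * m ^ 2 * E ^ 3 + 2327936 * q ^
    3 * m * E ^ 4 + 2041728 * q ^ 3 * E ^ 5 + 96 * q ^ 2 * m ^ 6 + 4668 * q ^ 2 * m ^ 5 * E +
    74572 * q ^ 2 * m ^ 4 * E ^ 2 + 560752 * q ^ 2 * m ^ 3 * E ^ 3 + 2179152 * q ^ 2 * m ^ 2 * E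
    ^ 4 + 4226176 * q ^ 2 * m * E ^ 5 + 3225088 * q ^ 2 * E ^ 6 + 352 * q * m ^ 6 * E + 10320 *
    q * m ^ 5 * E ^ 2 + 120696 * q * m ^ 4 * E ^ 3 + 725024 * q * m ^ 3 * E ^ 4 + 2367072 * q *
    m ^ 2 * E ^ 5 + 3990016 * q * m * E ^ 6 + 2716672 * q * E ^ 7 + 256 * m ^ 6 * E ^ 2 + 6272 *
    m ^ 5 * E ^ 3 + 63040 * m ^ 4 * E ^ 4 + 332352 * m ^ 3 * E ^ 5 + 968320 * m ^ 2 * E ^ 6 +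
    1477120 * m * E ^ 7 + 921600 * E ^ 8) := by
  unfold qc
  ring

/-- **C_POS**. -/
theorem c_pos : C_POS := by
  have h1 : ∀ P Q M E : ℝ, 0 < P + E → 0 < Q + E → 0 < M → E ≤ 0 →
      0 < qc (P + Q) Q (Q + E) (Q + M + E) := by
    intro P Q M E hP hQ hM hE
    obtain ⟨F, rfl⟩ : ∃ F, E = -F := ⟨-E, by ring⟩
    obtain ⟨A, rfl⟩ : ∃ A, P = A + F := ⟨P - F, by ring⟩
    obtain ⟨B, rfl⟩ : ∃ B, Q = B + F := ⟨Q - F, by ring⟩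
    have hF : 0 ≤ F := by linarith
    have hA : 0 < A := by linarith
    have hB : 0 < B := by linarith
    have e : qc (A + F + (B + F)) (B + F) (B + F + -F) (B + F + M + -F) =
        qc (A + B + 2 * F) (B + F) B (B + M) := by congr 1 <;> ring
    rw [e, qc_bd]
    positivity
  refine ⟨h1, ?_⟩
  intro P Q M E hP hQ hM hE hEP hEQ hEM hc
  rcases hE.eq_or_lt with rfl | hE'
  · exact h1 P Q M 0 (by linarith) (by linarith) hM le_rfl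
  obtain ⟨p, rfl⟩ : ∃ p, P = p + E := ⟨P - E, by ring⟩
  obtain ⟨q, rfl⟩ : ∃ q, Q = q + E := ⟨Q - E, by ring⟩
  obtain ⟨m, rfl⟩ : ∃ m, M = m + 2 * E := ⟨M - 2 * E, by ring⟩
  have hp : 0 ≤ p := by linarith
  have hq : 0 ≤ q := by linarith
  have hm : 0 ≤ m := by linarith
  have e : qc (p + E + (q + E)) (q + E) (q + E + E) (q + E + (m + 2 * E) + E) =
      qc (p + q + 2 * E) (q + E) (q + 2 * E) (q + m + 4 * E) := by congr 1 <;> ring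
  rw [e, qc_c]
  have hc' : p * ((m + 2 * E) * (4 * (q + E) * E - (m + 2 * E) ^ 2)) ≤
      8 * (q + m / 2 + 2 * E) ^ 4 := by
    have e1 : (p + E - E) * (m + 2 * E) * (4 * (q + E) * E - (m + 2 * E) ^ 2) =
        p * ((m + 2 * E) * (4 * (q + E) * E - (m + 2 * E) ^ 2)) := by ring
    have e2 : q + E + (m + 2 * E) / 2 = q + m / 2 + 2 * E := by ring
    rw [e1, e2] at hc
    exact hc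
  have k1 := mul_le_mul_of_nonneg_left hc' (pow_nonneg hp 4)
  have k2 : 0 ≤ 16 * E * (3 * q ^ 3 + 24 * E ^ 3 - 2 * q * E ^ 2) := by
    have := mul_nonneg (sq_nonneg (q - E)) (by positivity : 0 ≤ q + 2 * E)
    have h3 : 0 ≤ 3 * q ^ 3 + 24 * E ^ 3 - 2 * q * E ^ 2 := by
      nlinarith [pow_nonneg hq 3, pow_nonneg hE 3]
    positivity
  have k3 : 16 * (q + m / 2 + 2 * E) ^ 4 ≤ 16 * q ^ 4 + 48 * q ^ 3 * m + 176 * q ^ 3 * E + 48 * q ^ 2 * m ^ 2 + 280 * q ^ 2 * m * E +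
      496 * q ^ 2 * E ^ 2 + 40 * q * m ^ 3 + 304 * q * m ^ 2 * E + 656 * q * m * E ^ 2 + 480 * q
      * E ^ 3 + 15 * m ^ 4 + 190 * m ^ 3 * E + 800 * m ^ 2 * E ^ 2 + 1280 * m * E ^ 3 + 640 * E
      ^ 4 := by
    have k4 : 0 ≤ 16 * q ^ 3 * m + 24 * q ^ 2 * m ^ 2 + 88 * q ^ 2 * m * E + 112 * q ^ 2 * E ^ 2 + 32 * q *
      m ^ 3 + 208 * q * m ^ 2 * E + 272 * q * m * E ^ 2 + 14 * m ^ 4 + 174 * m ^ 3 * E + 704 * m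
      ^ 2 * E ^ 2 + 1024 * m * E ^ 3 := by positivity
    nlinarith
  have k5 := mul_le_mul_of_nonneg_left k3 (pow_nonneg hp 4)
  have k6 : 0 < 128 * p ^ 3 * q ^ 5 + 528 * p ^ 3 * q ^ 4 * m + 2048 * p ^ 3 * q ^ 4 * E + 752 * p ^ 3 * q
      ^ 3 * m ^ 2 + 5864 * p ^ 3 * q ^ 3 * m * E + 11632 * p ^ 3 * q ^ 3 * E ^ 2 + 522 * p ^ 3 *
      q ^ 2 * m ^ 3 + 6020 * p ^ 3 * q ^ 2 * m ^ 2 * E + 22912 * p ^ 3 * q ^ 2 * m * E ^ 2 +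
      29888 * p ^ 3 * q ^ 2 * E ^ 3 + 172 * p ^ 3 * q * m ^ 4 + 2786 * p ^ 3 * q * m ^ 3 * E +
      15876 * p ^ 3 * q * m ^ 2 * E ^ 2 + 38784 * p ^ 3 * q * m * E ^ 3 + 36032 * p ^ 3 * q * E
      ^ 4 + 18 * p ^ 3 * m ^ 5 + 446 * p ^ 3 * m ^ 4 * E + 3836 * p ^ 3 * m ^ 3 * E ^ 2 + 14896
      * p ^ 3 * m ^ 2 * E ^ 3 + 26816 * p ^ 3 * m * E ^ 4 + 18688 * p ^ 3 * E ^ 5 + 272 * p ^ 2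
      * q ^ 6 + 1520 * p ^ 2 * q ^ 5 * m + 5920 * p ^ 2 * q ^ 5 * E + 2904 * p ^ 2 * q ^ 4 * m ^
      2 + 24000 * p ^ 2 * q ^ 4 * m * E + 48640 * p ^ 2 * q ^ 4 * E ^ 2 + 2630 * p ^ 2 * q ^ 3 *
      m ^ 3 + 33980 * p ^ 2 * q ^ 3 * m ^ 2 * E + 142744 * p ^ 2 * q ^ 3 * m * E ^ 2 + 197280 *
      p ^ 2 * q ^ 3 * E ^ 3 + 1162 * p ^ 2 * q ^ 2 * m ^ 4 + 21350 * p ^ 2 * q ^ 2 * m ^ 3 * E +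
      140660 * p ^ 2 * q ^ 2 * m ^ 2 * E ^ 2 + 399392 * p ^ 2 * q ^ 2 * m * E ^ 3 + 419392 * p ^
      2 * q ^ 2 * E ^ 4 + 202 * p ^ 2 * q * m ^ 5 + 5426 * p ^ 2 * q * m ^ 4 * E + 52808 * p ^ 2
      * q * m ^ 3 * E ^ 2 + 240136 * p ^ 2 * q * m ^ 2 * E ^ 3 + 521536 * p ^ 2 * q * m * E ^ 4
      + 442752 * p ^ 2 * q * E ^ 5 + 244 * p ^ 2 * m ^ 5 * E + 4812 * p ^ 2 * m ^ 4 * E ^ 2 +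
      36824 * p ^ 2 * m ^ 3 * E ^ 3 + 137056 * p ^ 2 * m ^ 2 * E ^ 4 + 249728 * p ^ 2 * m * E ^
      5 + 180736 * p ^ 2 * E ^ 6 + 160 * p * q ^ 7 + 1440 * p * q ^ 6 * m + 5200 * p * q ^ 6 * E
      + 3680 * p * q ^ 5 * m ^ 2 + 30592 * p * q ^ 5 * m * E + 60192 * p * q ^ 5 * E ^ 2 + 4356
      * p * q ^ 4 * m ^ 3 + 58680 * p * q ^ 4 * m ^ 2 * E + 252840 * p * q ^ 4 * m * E ^ 2 +
      348960 * p * q ^ 4 * E ^ 3 + 2668 * p * q ^ 3 * m ^ 4 + 51462 * p * q ^ 3 * m ^ 3 * E +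
      355788 * p * q ^ 3 * m ^ 2 * E ^ 2 + 1051056 * p * q ^ 3 * m * E ^ 3 + 1125824 * p * q ^ 3
      * E ^ 4 + 814 * p * q ^ 2 * m ^ 5 + 21554 * p * q ^ 2 * m ^ 4 * E + 214884 * p * q ^ 2 * m
      ^ 3 * E ^ 2 + 1018848 * p * q ^ 2 * m ^ 2 * E ^ 3 + 2316992 * p * q ^ 2 * m * E ^ 4 +
      2039296 * p * q ^ 2 * E ^ 5 + 96 * p * q * m ^ 6 + 3664 * p * q * m ^ 5 * E + 52168 * p *
      q * m ^ 4 * E ^ 2 + 365400 * p * q * m ^ 3 * E ^ 3 + 1352112 * p * q * m ^ 2 * E ^ 4 +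
      2539136 * p * q * m * E ^ 5 + 1913344 * p * q * E ^ 6 + 96 * p * m ^ 6 * E + 2864 * p * m
      ^ 5 * E ^ 2 + 33400 * p * m ^ 4 * E ^ 3 + 197808 * p * m ^ 3 * E ^ 4 + 633216 * p * m ^ 2
      * E ^ 5 + 1046528 * p * m * E ^ 6 + 703488 * p * E ^ 7 + 400 * q ^ 7 * m + 960 * q ^ 7 * E
      + 1480 * q ^ 6 * m ^ 2 + 11560 * q ^ 6 * m * E + 19248 * q ^ 6 * E ^ 2 + 2210 * q ^ 5 * m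
      ^ 3 + 30236 * q ^ 5 * m ^ 2 * E + 127632 * q ^ 5 * m * E ^ 2 + 162976 * q ^ 5 * E ^ 3 +
      1663 * q ^ 4 * m ^ 4 + 34116 * q ^ 4 * m ^ 3 * E + 244076 * q ^ 4 * m ^ 2 * E ^ 2 + 725600
      * q ^ 4 * m * E ^ 3 + 753088 * q ^ 4 * E ^ 4 + 630 * q ^ 3 * m ^ 5 + 18750 * q ^ 3 * m ^ 4
      * E + 201112 * q ^ 3 * m ^ 3 * E ^ 2 + 999304 * q ^ 3 * m ^ 2 * E ^ 3 + 2327936 * q ^ 3 *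
      m * E ^ 4 + 2041728 * q ^ 3 * E ^ 5 + 96 * q ^ 2 * m ^ 6 + 4668 * q ^ 2 * m ^ 5 * E +
      74572 * q ^ 2 * m ^ 4 * E ^ 2 + 560752 * q ^ 2 * m ^ 3 * E ^ 3 + 2179152 * q ^ 2 * m ^ 2 *
      E ^ 4 + 4226176 * q ^ 2 * m * E ^ 5 + 3225088 * q ^ 2 * E ^ 6 + 352 * q * m ^ 6 * E +
      10320 * q * m ^ 5 * E ^ 2 + 120696 * q * m ^ 4 * E ^ 3 + 725024 * q * m ^ 3 * E ^ 4 +
      2367072 * q * m ^ 2 * E ^ 5 + 3990016 * q * m * E ^ 6 + 2716672 * q * E ^ 7 + 256 * m ^ 6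
      * E ^ 2 + 6272 * m ^ 5 * E ^ 3 + 63040 * m ^ 4 * E ^ 4 + 332352 * m ^ 3 * E ^ 5 + 968320 *
      m ^ 2 * E ^ 6 + 1477120 * m * E ^ 7 + 921600 * E ^ 8 := by positivity
  nlinarith

end Pool.Agent.Helper58.DH
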