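import Pool.Agent.Helper58.DG.Defs

/-!
# Project DH (MP_06d934_gt): a non-Kähler invariant Einstein metric on the flag manifolds of the families C and B, D

`SO(2p+2q+m)/(U(p) × U(q) × SO(m))` (`ε = -1`) and `Sp(p+q+r)/(U(p) × U(q) × Sp(r))` (`ε = 1`, `m = 2r`).
The six isotropy summands belong to the T-roots `δ₁-δ₂, δ₁+δ₂, 2δ₁, 2δ₂, δ₁, δ₂`; the invariant metric is
`w = (a, b, u, v, s, t)`. Parameters: `P = p/k`, `Q = q/k`, `M = m/k`, `E = ε/k` with `k = 2p + 2q + m + 2ε`, so that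
`2P + 2Q + M + 2E = 1`. Einstein constant `1/2`. `B` is an artificial parameter (`B = 1` are the Einstein equations).
-/

set_option autoImplicit false

namespace Pool.Agent.Helper58.DH

/-- The cosine of the angle opposite to `z` in the triangle with sides `x, y, z`. -/
noncomputable def cs (x y z : ℝ) : ℝ := (x ^ 2 + y ^ 2 - z ^ 2) / (2 * x * y)

/-- The equations of the family; the Einstein equations are those with `B = 1`. -/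
def EqC (P Q M E B : ℝ) (w : Fin 6 → ℝ) : Prop :=
  w 0 = 1 - (P + E) * cs (w 1) (w 2) (w 0) - (Q + E) * cs (w 1) (w 3) (w 0) -
      M * cs (w 4) (w 5) (w 0) ∧
  w 1 = 1 - (P + E) * cs (w 0) (w 2) (w 1) - (Q + E) * cs (w 0) (w 3) (w 1) -
      M * cs (w 4) (w 5) (w 1) ∧
  w 2 = B - 2 * Q * cs (w 0) (w 1) (w 2) - M * cs (w 4) (w 4) (w 2) ∧
  w 3 = B - 2 * P * cs (w 0) (w 1) (w 3) - M * cs (w 5) (w 5) (w 3) ∧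
  w 4 = 1 - (P + E) * cs (w 2) (w 4) (w 4) -
      Q * (cs (w 5) (w 1) (w 4) + cs (w 5) (w 0) (w 4)) ∧
  w 5 = 1 - (Q + E) * cs (w 3) (w 5) (w 5) -
      P * (cs (w 4) (w 1) (w 5) + cs (w 4) (w 0) (w 5))

/-- The positive solutions. -/
def SolC (P Q M E B : ℝ) (w : Fin 6 → ℝ) : Prop := (∀ i, 0 < w i) ∧ EqC P Q M E B w

/-- The equations without denominators. -/
def PC (P Q M E B : ℝ) (w : Fin 6 → ℝ) : Fin 6 → ℝ :=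
  ![2 * w 1 * w 2 * w 3 * w 4 * w 5 * (w 0 - 1) +
      (P + E) * (w 1 ^ 2 + w 2 ^ 2 - w 0 ^ 2) * w 3 * w 4 * w 5 +
      (Q + E) * (w 1 ^ 2 + w 3 ^ 2 - w 0 ^ 2) * w 2 * w 4 * w 5 +
      M * (w 4 ^ 2 + w 5 ^ 2 - w 0 ^ 2) * w 1 * w 2 * w 3,
    2 * w 0 * w 2 * w 3 * w 4 * w 5 * (w 1 - 1) +
      (P + E) * (w 0 ^ 2 + w 2 ^ 2 - w 1 ^ 2) * w 3 * w 4 * w 5 +
      (Q + E) * (w 0 ^ 2 + w 3 ^ 2 - w 1 ^ 2) * w 2 * w 4 * w 5 +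
      M * (w 4 ^ 2 + w 5 ^ 2 - w 1 ^ 2) * w 0 * w 2 * w 3,
    2 * w 0 * w 1 * w 4 ^ 2 * (w 2 - B) + 2 * Q * (w 0 ^ 2 + w 1 ^ 2 - w 2 ^ 2) * w 4 ^ 2 +
      M * (2 * w 4 ^ 2 - w 2 ^ 2) * w 0 * w 1,
    2 * w 0 * w 1 * w 5 ^ 2 * (w 3 - B) + 2 * P * (w 0 ^ 2 + w 1 ^ 2 - w 3 ^ 2) * w 5 ^ 2 +
      M * (2 * w 5 ^ 2 - w 3 ^ 2) * w 0 * w 1,
    2 * w 4 * w 5 * w 0 * w 1 * (w 4 - 1) + (P + E) * w 2 * w 5 * w 0 * w 1 +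
      Q * w 4 * ((w 5 ^ 2 + w 1 ^ 2 - w 4 ^ 2) * w 0 + (w 5 ^ 2 + w 0 ^ 2 - w 4 ^ 2) * w 1),
    2 * w 4 * w 5 * w 0 * w 1 * (w 5 - 1) + (Q + E) * w 3 * w 4 * w 0 * w 1 +
      P * w 5 * ((w 4 ^ 2 + w 1 ^ 2 - w 5 ^ 2) * w 0 + (w 4 ^ 2 + w 0 ^ 2 - w 5 ^ 2) * w 1)]

/-- The general system: `d_e x_e = d_e β_e - ∑_{j,k} A_{ejk} cos(x_j, x_k; x_e)`. -/
def Sys {n : ℕ} (d β : Fin n → ℝ) (A : Fin n → Fin n → Fin n → ℝ) (x : Fin n → ℝ) : Prop :=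
  (∀ e, 0 < x e) ∧
    ∀ e, d e * x e = d e * β e - ∑ j, ∑ k, A e j k * cs (x j) (x k) (x e)

/-- Nonnegative and symmetric in the three indices. -/
def Sym3 {n : ℕ} (A : Fin n → Fin n → Fin n → ℝ) : Prop :=
  (∀ i j k, 0 ≤ A i j k) ∧ (∀ i j k, A i j k = A j i k) ∧ ∀ i j k, A i j k = A i k j

/-- `S` consists of the smallest values of `x`. -/
def Low {n : ℕ} (x : Fin n → ℝ) (S : Finset (Fin n)) : Prop := ∀ i ∈ S, ∀ j ∉ S, x i ≤ x j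

/-- `-2 cos`: the contribution of a triple to the equation of its member `z`. -/
noncomputable def ph (x y z : ℝ) : ℝ := (z ^ 2 - x ^ 2 - y ^ 2) / (x * y)

/-- The contribution of the triple `i, j, k` to the sum of the equations of the elements of `S`. -/
noncomputable def PH {n : ℕ} (x : Fin n → ℝ) (S : Finset (Fin n)) (i j k : Fin n) : ℝ :=
  (if i ∈ S then ph (x j) (x k) (x i) else 0) + (if j ∈ S then ph (x i) (x k) (x j) else 0) +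
    (if k ∈ S then ph (x i) (x j) (x k) else 0)

/-- The indicator of the permutations of the triple `p, q, r`. -/
def ind (p q r i j k : Fin 6) : ℝ :=
  if ({i, j, k} : Multiset (Fin 6)) = {p, q, r} then 1 else 0

/-- Dimensions of the summands (divided by the square of `k`). -/
def dC (P Q M E : ℝ) : Fin 6 → ℝ :=
  ![2 * P * Q, 2 * P * Q, P * (P + E), Q * (Q + E), 2 * P * M, 2 * Q * M]

/-- The structure constants (divided by the square of `k`). -/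
def AC (P Q M E : ℝ) (i j k : Fin 6) : ℝ :=
  P * Q * (P + E) * ind 0 1 2 i j k + P * Q * (Q + E) * ind 0 1 3 i j k +
    P * Q * M * ind 0 4 5 i j k + P * Q * M * ind 1 4 5 i j k +
    P * (P + E) * M * ind 2 4 4 i j k + Q * (Q + E) * M * ind 3 5 5 i j k

/-- The Kähler-Einstein metric with `h₁ > h₂ > 0`. -/
def kc (P Q M E : ℝ) : Fin 6 → ℝ :=
  ![P + Q, P + 3 * Q + 2 * M + 2 * E, 2 * P + 4 * Q + 2 * M + 2 * E, 2 * Q + 2 * M + 2 * E,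
    P + 2 * Q + M + E, Q + M + E]

/-- The symmetry `δ₂ ↦ -δ₂`. -/
def s1 (w : Fin 6 → ℝ) : Fin 6 → ℝ := ![w 1, w 0, w 2, w 3, w 4, w 5]

/-- The exchange of `δ₁` and `δ₂` (together with that of `P` and `Q`). -/
def s2 (w : Fin 6 → ℝ) : Fin 6 → ℝ := ![w 0, w 1, w 3, w 2, w 5, w 4]

/-- The determinant of the linearised equations at `kc P Q M E` (up to a positive factor) in the variables
`a = P + Q`, `Q`, `c = Q + E`, `t = Q + M + E`. -/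
def qc (a Q c t : ℝ) : ℝ :=
  -8 * a ^ 5 * Q ^ 2 * c + 8 * a ^ 5 * Q ^ 2 * t + 8 * a ^ 5 * Q * c ^ 2 - 8 * a ^ 5 * Q * c * t
  - 2 * a ^ 5 * c ^ 3 + 6 * a ^ 5 * c ^ 2 * t - 6 * a ^ 5 * c * t ^ 2 + 2 * a ^ 5 * t ^ 3 + 8 *
  a ^ 4 * Q ^ 3 * c - 8 * a ^ 4 * Q ^ 3 * t - 12 * a ^ 4 * Q ^ 2 * c ^ 2 - 40 * a ^ 4 * Q ^ 2 *
  c * t + 84 * a ^ 4 * Q ^ 2 * t ^ 2 + 6 * a ^ 4 * Q * c ^ 3 + 38 * a ^ 4 * Q * c ^ 2 * t - 70 *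
  a ^ 4 * Q * c * t ^ 2 + 10 * a ^ 4 * Q * t ^ 3 - 1 * a ^ 4 * c ^ 4 - 8 * a ^ 4 * c ^ 3 * t +
  34 * a ^ 4 * c ^ 2 * t ^ 2 - 40 * a ^ 4 * c * t ^ 3 + 15 * a ^ 4 * t ^ 4 + 40 * a ^ 3 * Q ^ 3
  * c * t - 104 * a ^ 3 * Q ^ 3 * t ^ 2 - 64 * a ^ 3 * Q ^ 2 * c ^ 2 * t - 32 * a ^ 3 * Q ^ 2 *
  c * t ^ 2 + 256 * a ^ 3 * Q ^ 2 * t ^ 3 + 34 * a ^ 3 * Q * c ^ 3 * t + 42 * a ^ 3 * Q * c ^ 2
  * t ^ 2 - 186 * a ^ 3 * Q * c * t ^ 3 + 78 * a ^ 3 * Q * t ^ 4 - 6 * a ^ 3 * c ^ 4 * t + 44 *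
  a ^ 3 * c ^ 2 * t ^ 3 - 56 * a ^ 3 * c * t ^ 4 + 18 * a ^ 3 * t ^ 5 + 32 * a ^ 2 * Q ^ 4 * t ^
  2 + 64 * a ^ 2 * Q ^ 3 * c * t ^ 2 - 304 * a ^ 2 * Q ^ 3 * t ^ 3 - 136 * a ^ 2 * Q ^ 2 * c ^ 2
  * t ^ 2 + 136 * a ^ 2 * Q ^ 2 * c * t ^ 3 + 208 * a ^ 2 * Q ^ 2 * t ^ 4 + 72 * a ^ 2 * Q * c ^
  3 * t ^ 2 - 40 * a ^ 2 * Q * c ^ 2 * t ^ 3 - 208 * a ^ 2 * Q * c * t ^ 4 + 160 * a ^ 2 * Q * t
  ^ 5 - 12 * a ^ 2 * c ^ 4 * t ^ 2 + 28 * a ^ 2 * c ^ 3 * t ^ 3 - 4 * a ^ 2 * c ^ 2 * t ^ 4 - 12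
  * a ^ 2 * c * t ^ 5 + 96 * a * Q ^ 4 * t ^ 3 + 16 * a * Q ^ 3 * c * t ^ 3 - 256 * a * Q ^ 3 *
  t ^ 4 - 144 * a * Q ^ 2 * c ^ 2 * t ^ 3 + 280 * a * Q ^ 2 * c * t ^ 4 - 56 * a * Q ^ 2 * t ^ 5
  + 72 * a * Q * c ^ 3 * t ^ 3 - 128 * a * Q * c ^ 2 * t ^ 4 - 40 * a * Q * c * t ^ 5 + 96 * a *
  Q * t ^ 6 - 8 * a * c ^ 4 * t ^ 3 + 24 * a * c ^ 3 * t ^ 4 - 16 * a * c ^ 2 * t ^ 5 + 64 * Q ^
  4 * t ^ 4 - 32 * Q ^ 3 * c * t ^ 4 - 32 * Q ^ 3 * t ^ 5 - 64 * Q ^ 2 * c ^ 2 * t ^ 4 + 128 * Q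
  ^ 2 * c * t ^ 5 - 64 * Q ^ 2 * t ^ 6 + 32 * Q * c ^ 3 * t ^ 4 - 96 * Q * c ^ 2 * t ^ 5 + 64 *
  Q * c * t ^ 6

/-- Ricci components (Wang-Ziller) of the invariant metric `x` on a space with pairwise inequivalent isotropy summands
of dimensions `d k` and structure constants `A i j k = [ijk]`. -/
noncomputable def ric (d : Fin 6 → ℝ) (A : Fin 6 → Fin 6 → Fin 6 → ℝ) (x : Fin 6 → ℝ) (k : Fin 6) :
    ℝ :=
  1 / (2 * x k) + 1 / (4 * d k) *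
    ∑ i, ∑ j, A i j k * (x k / (x i * x j) - x i / (x j * x k) - x j / (x i * x k))

/-- Dimensions of the summands. -/
def dF (ε p q m : ℝ) : Fin 6 → ℝ :=
  ![2 * p * q, 2 * p * q, p * (p + ε), q * (q + ε), 2 * p * m, 2 * q * m]

/-- The structure constants `[ijk]` with respect to the negative of the Killing form. -/
noncomputable def AF (ε p q m : ℝ) (i j k : Fin 6) : ℝ :=
  (p * q * (p + ε) * ind 0 1 2 i j k + p * q * (q + ε) * ind 0 1 3 i j k +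
    p * q * m * ind 0 4 5 i j k + p * q * m * ind 1 4 5 i j k +
    p * (p + ε) * m * ind 2 4 4 i j k + q * (q + ε) * m * ind 3 5 5 i j k) /
    (2 * p + 2 * q + m + 2 * ε)

/-- Positivity of `qc` on the path from `(P, Q, M, E)` to `(P, Q, M, 0)`. -/
def PosPath (P Q M E : ℝ) : Prop :=
  ∀ τ ∈ Set.Icc (0 : ℝ) 1, 0 < qc (P + Q) Q (Q + τ * E) (Q + M + τ * E)

/-- Kähler metrics: `x_γ = |γ(h)|` for the T-roots `γ`. -/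
def KC (w : Fin 6 → ℝ) : Prop :=
  ∃ h k : ℝ, w = ![|h - k|, |h + k|, 2 * |h|, 2 * |k|, |h|, |k|]

end Pool.Agent.Helper58.DH
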