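import Pool.Agent.Helper58.DH.Defs
import Pool.Agent.Helper58.DG.Goals

/-!
# Project DH (MP_06d934_gt): goals. Every statement is a `def ... : Prop` with a complete proof in the docstring.
-/

set_option autoImplicit false

namespace Pool.Agent.Helper58.DH

open Pool.Agent.Helper58.DG

/-! ## Part Q: a priori bounds for the general system -/

/-- **Q_PHI** (inequalities for `ph x y z = (z² - x² - y²)/(x y)`).

PROOF. (1) `x ≤ y, z`: the numerator `x² - y² - z²` is `≤ 0`. (2) With the common denominator `x y z` the sum is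
`[x (x²-y²-z²) + y (y²-x²-z²)]/(x y z) = (x + y) ((y-x)² - z²)/(x y z) = -(x+y)(z-y+x)(z+y-x)/(x y z)`, and `x + y ≥ y`,
`z - y + x ≥ z - y ≥ 0`, `z + y - x ≥ z`, so it is `≤ -(z-y) y z/(x y z)`. (3) The sum is `-2 - Π/(x y z)` with
`Π = (x+y-z)(x+z-y)(y+z-x)` (common denominator, `ring`). If `z ≤ x + y` then `Π ≥ 0` and the sum is `≤ -2`. Otherwise
`-Π = (z-x-y)(x+z-y)(y+z-x) ≤ (C-1) x (C+1) x (2z)`, so the sum is `≤ -2 + 2 (C²-1) x/y ≤ 2 C²` (`x ≤ y`).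
(4) `Π ≤ x y z` (Schur: WLOG `x ≤ y ≤ z`; `x y z - Π = (z-x-y)(z-y)² ...`; or: if all three factors are positive, multiply
`(x+y-z)(x+z-y) = x² - (y-z)² ≤ x²` and its two analogues; at most one factor is not positive, then `Π ≤ 0`).
(5) `ph y z x = -2 + (x² - (z-y)²)/(y z) ≥ -2 - C² x²/(y z)` and `y z ≥ (Λ x)²` (`z ≥ y ≥ Λ x`). -/
def Q_PHI : Prop :=
  (∀ x y z : ℝ, 0 < x → x ≤ y → x ≤ z → ph y z x ≤ 0) ∧
  (∀ x y z : ℝ, 0 < x → x ≤ y → y ≤ z → ph y z x + ph x z y ≤ -((z - y) / x)) ∧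
  (∀ x y z C : ℝ, 0 < x → x ≤ y → y ≤ z → 1 ≤ C → z ≤ y + C * x →
    ph y z x + ph x z y + ph x y z ≤ 2 * C ^ 2) ∧
  (∀ x y z : ℝ, 0 < x → 0 < y → 0 < z → -3 ≤ ph y z x + ph x z y + ph x y z) ∧
  ∀ x y z C L : ℝ, 0 < x → y ≤ z → 1 ≤ C → z ≤ y + C * x → 1 ≤ L → L * x ≤ y →
    -2 - C ^ 2 / L ^ 2 ≤ ph y z x

/-- **Q_IDN** (the sum of the equations of the elements of `S`).

PROOF. `ph (x j) (x k) (x e) = -2 * cs (x j) (x k) (x e)`, so `∑_{e∈S} d_e x_e = ∑_{e∈S} d_e β_e + (1/2) T` with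
`T = ∑_{e∈S} ∑_j ∑_k A e j k * ph (x j) (x k) (x e)`. The sum `∑_{ijk} A_{ijk} PH` has three parts; each of them is `T`: the first by
definition (`Finset.sum_ite_mem`/`Finset.sum_filter`), the second after exchanging `i` and `j` (`Finset.sum_comm`,
`A i j k = A j i k`), the third after exchanging `i` and `k` (with `A i j k = A k j i`; `ph` is symmetric in its first two
arguments). So `(1/6) ∑ = T/2`. -/
def Q_IDN : Prop :=
  ∀ (n : ℕ) (d β : Fin n → ℝ) (A : Fin n → Fin n → Fin n → ℝ) (x : Fin n → ℝ), Sym3 A →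
    Sys d β A x → ∀ S : Finset (Fin n),
    ∑ e ∈ S, d e * x e =
      ∑ e ∈ S, d e * β e + (1 / 6) * ∑ i, ∑ j, ∑ k, A i j k * PH x S i j k

/-- The quasi triangle inequality. -/
def QT {n : ℕ} (A : Fin n → Fin n → Fin n → ℝ) (C : ℝ) (x : Fin n → ℝ) : Prop :=
  ∀ i j k, A i j k ≠ 0 → x i ≤ x j → x j ≤ x k → x k ≤ x j + C * x i

/-- **Q_QTI** (the quasi triangle inequality for the solutions). USES `Q_PHI`, `Q_IDN`.

PROOF. Claim(N): there is `C ≥ 1` such that for all `β, x` as in the statement and all `S` with `Low x S` and card `≤ N`: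
for all `i, j, k ∈ S` with `A i j k ≠ 0`, `x i ≤ x j ≤ x k` we have `x k ≤ x j + C x i`. The statement is Claim(n) with
`S = univ`. Induction; N = 0 is empty. Step: let `C` be the constant of Claim(N), `D = ∑ d`, `T = ∑ A_{ijk}`, `α > 0` a lower
bound of the nonzero `A i j k` (finitely many), and `C' = C + (6 D |B₀| + 2 C² T)/α`. Let `S` have `N + 1` elements (for fewer
elements use Claim(N)), `m ∈ S` with `x m` maximal (`Finset.exists_max_image`), `S' = S.erase m`. Then `Low x S'`. Let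
`i, j, k ∈ S` be as above. If `i, j, k ∈ S'`: Claim(N). If `k ≠ m` and one of `i, j` is `m`, then `x j = x k` or `x i = x j = x k`
(maximality of `m`), trivial. If `k = m` and `i` or `j` is `m`: `x j ≥ x m` (if `i = m` then `x j ≥ x i = x m`), trivial. It remains
`i, j ∈ S'`, `k = m ∉ S'`. Apply `Q_IDN` to `S'`: the left side is `> 0` (`≥ 0`), `∑_{S'} d β ≤ D |B₀|`. Every term
`A i' j' k' * PH x S' i' j' k'` is `≤ A i' j' k' * 2 C²`: (`PH` and `A` are symmetric in `i', j', k'`) if all three indices are in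
`S'` by Claim(N) and `Q_PHI` (3) (order the three values); if two are in `S'` it is `≤ 0` by (2) (the value at the third index is the
largest by `Low`), if one is in `S'` it is `≤ 0` by (1), if none, it is `0`. The term of our `(i, j, m)` is `≤ -α (x k - x j)/x i` by
(2). So `0 ≤ D |B₀| + (1/6)(2 C² T - α (x k - x j)/x i)`, i.e. `(x k - x j)/x i ≤ C'`. -/
def Q_QTI : Prop :=
  ∀ (n : ℕ) (d : Fin n → ℝ) (A : Fin n → Fin n → Fin n → ℝ) (B₀ : ℝ), Sym3 A → (∀ e, 0 < d e) →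
    ∃ C : ℝ, 1 ≤ C ∧ ∀ β x : Fin n → ℝ, (∀ e, β e ≤ B₀) → Sys d β A x → QT A C x

/-- **Q_LOW** (lower bound). USES `Q_PHI`, `Q_IDN`.

PROOF. `T = ∑ A_{ijk}`, `L = 1 + C + C² T/κ` (so `L ≥ 1 + C` and `L² ≥ L ≥ C² T/κ`), `D = ∑ d`, `δ = κ/(2 D L^n)` (`n ≥ 1`, otherwise
there is nothing to prove). Let `m` be an index with `x m` minimal and `τ_l = L^l x m`, `l = 0, …, n`. The `n` intervals
`(τ_l, τ_{l+1}]`, `l < n`, are pairwise disjoint and none contains `x m`; the `n - 1` other values are in at most `n - 1` of them, so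
there is `l < n` such that no value is in `(τ_l, τ_{l+1}]`. Let `S = {e | x e ≤ τ_l}`; `m ∈ S`, and `x e > L τ_l` for `e ∉ S`.
`Q_IDN`. No triple with `A i j k ≠ 0` has exactly two indices in `S`: the value `z` at the index outside is
`> L τ_l ≥ (1 + C) τ_l`, but `z ≤ y + C x ≤ (1 + C) τ_l` by `QT`, where `x ≤ y ≤ τ_l` are the two others. If exactly one index (`i`, say)
is in `S` then by `Q_PHI` (5) (`QT` holds with `x i ≤ min ≤ max`, and `L x i ≤ x j, x k`) `PH ≥ -2 - C²/L²`; if all three are in `S`,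
`PH ≥ -3`. The sum over the ordered triples with exactly one index in `S` of `A` is `3 ∑_{i∈S} ∑_{j,k∉S} A_{ijk}`, the sum over
those with all three in `S` is `∑_{i∈S} ∑_{j,k∈S} A_{ijk}`. So
`(1/6) ∑ A PH ≥ -(1 + C²/(2L²)) ∑_{i∈S} ∑_{j,k∉S} A - (1/2) ∑_{i∈S} ∑_{j,k∈S} A ≥ -(1 + C²/(2L²)) ∑_{i∈S} ∑_{j,k} A_{ijk}`. (It is enough
to have: `A i j k * PH x S i j k ≥ -(2 + C²/L²) A i j k * ([i∈S] + [j∈S] + [k∈S])` for every triple, in all cases; for three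
indices in `S` because `-3 ≥ -6`; then sum over the triples using the symmetry of `A`: the sum is
`-(2 + C²/L²) · 3 ∑_{i∈S} ∑_{j,k} A_{ijk}`.) Hence `∑_{e∈S} d_e x_e ≥ ∑_{e∈S} (d_e - (1 + C²/(2L²)) ∑_{jk} A_{ejk}) ≥ ∑_{e∈S} (κ - C² T/(2L²)) ≥ κ/2`,
since `C² T/L² ≤ κ` and `S ≠ ∅`. On the other hand it is `≤ D τ_l ≤ D L^n x m`. -/
def Q_LOW : Prop :=
  ∀ (n : ℕ) (d : Fin n → ℝ) (A : Fin n → Fin n → Fin n → ℝ) (κ C : ℝ), Sym3 A →
    (∀ e, 0 < d e) → 0 < κ → 1 ≤ C → (∀ e, κ ≤ d e - ∑ j, ∑ k, A e j k) →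
    ∃ δ : ℝ, 0 < δ ∧ ∀ β x : Fin n → ℝ, (∀ e, 1 ≤ β e) → Sys d β A x → QT A C x →
      ∀ e, δ ≤ x e

/-- **Q_UPP** (upper bound).

PROOF. For the index `m` with `x m` maximal: if `A m j k ≠ 0` and (WLOG, `A m j k = A m k j`, `cs` is symmetric) `x j ≤ x k` then
`x m ≤ x k + C x j` by `QT` for `(j, k, m)`, so `-cs (x j) (x k) (x m) = (x m² - x j² - x k²)/(2 x j x k) ≤ C + (C² - 1) x j/(2 x k) ≤ C + C²`.
The equation: `d m x m ≤ d m B₀ + ∑_{jk} A m j k (C + C²)`. Take `R = |B₀| + (∑ A)(C + C²) ∑_e 1/d e`. -/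
def Q_UPP : Prop :=
  ∀ (n : ℕ) (d : Fin n → ℝ) (A : Fin n → Fin n → Fin n → ℝ) (B₀ C : ℝ), Sym3 A →
    (∀ e, 0 < d e) → 1 ≤ C →
    ∃ R : ℝ, ∀ β x : Fin n → ℝ, (∀ e, β e ≤ B₀) → Sys d β A x → QT A C x → ∀ e, x e ≤ R

/-! ## Part H: the family -/

/-- **H_EQN** (forms of the system).

PROOF. (1) The components `0, …, 5` of `PC` are the differences (left minus right side) of the equations of `EqC`, multiplied by
`2 w1 w2 w3 w4 w5`, `2 w0 w2 w3 w4 w5`, `2 w0 w1 w4²`, `2 w0 w1 w5²`, `2 w4 w5 w0 w1`, `2 w4 w5 w0 w1` (`field_simp`, `ring`).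
(2) `AC` is symmetric (permutations of a multiset: `Multiset.cons_swap`) and `≥ 0`. Row sums over ordered pairs: `e = 0, 1`:
`2PQ(P+E) + 2PQ(Q+E) + 2PQM`; `e = 2`: `2PQ(P+E) + P(P+E)M`; `e = 3`: `2PQ(Q+E) + Q(Q+E)M`; `e = 4`: `4PQM + 2P(P+E)M`; `e = 5`:
`4PQM + 2Q(Q+E)M`. With `2P + 2Q + M + 2E = 1` the differences `d e - ∑∑` are `2PQ(P+Q)` (twice), `2P(P+E)(P+E)`, `2Q(Q+E)(Q+E)`,
`2PM(P+E+M)`, `2QM(Q+E+M)`, all positive; `κ` is the smallest of them. (3) `Sys`: expand the double sums (`Fin.sum_univ_succ`, the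
`ind` are decidable); `cs` is symmetric in the first two arguments, `d e * (…)`. -/
def H_EQN : Prop :=
  (∀ (P Q M E B : ℝ) (w : Fin 6 → ℝ), (∀ i, 0 < w i) → (PC P Q M E B w = 0 ↔ EqC P Q M E B w)) ∧
  ∀ P Q M E : ℝ, 0 < P → 0 < Q → 0 < M → 0 < P + E → 0 < Q + E →
    Sym3 (AC P Q M E) ∧ (∀ e, 0 < dC P Q M E e) ∧
    (2 * P + 2 * Q + M + 2 * E = 1 →
      ∃ κ : ℝ, 0 < κ ∧ ∀ e, κ ≤ dC P Q M E e - ∑ j, ∑ k, AC P Q M E e j k) ∧
    ∀ (B : ℝ) (w : Fin 6 → ℝ), SolC P Q M E B w →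
      Sys (dC P Q M E) ![1, 1, B, B, 1, 1] (AC P Q M E) w

/-- **H_BND**. USES `Q_QTI`, `Q_LOW`, `Q_UPP`, `H_EQN`.

PROOF. `Q_QTI` with `B₀` gives `C`; `Q_LOW` (with `κ` of `H_EQN`) and `Q_UPP` give `δ`, `R` (`β = ![1,1,B,B,1,1]`, `1 ≤ β e ≤ B₀`). -/
def H_BND : Prop :=
  ∀ P Q M E B₀ : ℝ, 0 < P → 0 < Q → 0 < M → 0 < P + E → 0 < Q + E →
    2 * P + 2 * Q + M + 2 * E = 1 → 1 ≤ B₀ →
    ∃ δ R : ℝ, 0 < δ ∧ ∀ B ∈ Set.Icc 1 B₀, ∀ w, SolC P Q M E B w → ∀ i, δ ≤ w i ∧ w i ≤ R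

/-- **N_NON** (no solution for large `B`).

PROOF. Write `a, b, u, v, s, t` for `w 0, …, w 5`, `α = P + E`, `β = Q + E`; `α, β, M, P, Q < 1`. Symmetries of the set of the
solutions: exchange of `a` and `b`; exchange of `(P, u, s)` and `(Q, v, t)`. So we may assume `b ≤ a` and `s ≤ t`. Let
`L = (B - 1/(2α) - M)/(2Q)` and let `B` be so large that `L ≥ 2`, `L ≥ 8/Q²`, `α (L-1)/2 > 1 + β`, `α² (L-1) > 1 + β/(2P)`, `B ≥ M` (and
the same with `P, α` and `Q, β` exchanged).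
(i) `cs t b s + cs t a s = ((a+b)/(2t)) (1 + (t²-s²)/(a b))` (`field_simp; ring`), so the equation of `s` (`cs u s s = u/(2s)`) is
`s + α u/(2s) + Q ((a+b)/(2t)) (1 + (t²-s²)/(ab)) = 1`, all terms `≥ 0`. Hence `a + b < 2t/Q`; `(t²-s²)(a+b)/(a b) < 2t/Q`, so
`t² - s² < 2 t b/Q` (`a/(a+b) ≤ 1`); `s < 1`; `α u < 2 s (1-s) ≤ 1/2`.
(ii) The equation of `u` and `cs s s u ≤ 1`: `c = cs a b u = (B - u - M cs s s u)/(2Q) ≥ L`. Now `u² = a² + b² - 2 a b c`; from `u² > 0`,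
`b ≤ a`: `b c < a`, so `b < a/L`; and `u² = a² + b (b - 2 a c) < a²`, `u < a`.
(iii) `b < a/L < 2t/(Q L)`, so `t² - s² < 4t²/(Q² L) ≤ t²/2`, `s² ≥ t²/2`, `cs s t a ≤ (s² + t²)/(2 s t) ≤ 2`.
(iv) `cs b u a = (b - a c)/u` (insert `u²`), `a c - b ≥ a (L - 1) > 0`. Since `u < a` and `u < 1/(2α)`:
`-α cs b u a = α (a c - b)/u ≥ (1/2) α (L-1) + (1/2) 2 α² a (L-1)`.
(v) The equation of `a`: `β cs b v a = 1 - a - α cs b u a - M cs s t a ≥ -1 - a + α (L-1)/2 + α² a (L-1)`.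
(vi) `cs b v a = (b - a c')/v` with `c' = cs a b v`, `v² = a² + b² - 2 a b c'`. Claim `cs b v a ≤ 1 + a/(2P)`. If `c' ≥ 0`: if
`b - a c' ≤ 0` clear; otherwise `v² > a² + b² - 2b² = a² - b² ≥ 3 a²/4` (`b ≤ a/2`), so `(b - a c')/v ≤ b/v ≤ 2b/a ≤ 1`. If `c' < 0`:
`v > a ≥ b`, so `b/v ≤ 1`, and the equation of `v` with `cs t t v ≤ 1`, `M ≤ B` gives `v ≥ B - M - 2 P c' ≥ -2 P c'`, so
`-a c'/v ≤ a/(2P)`. (v) and the claim: `α (L-1)/2 + α² a (L-1) ≤ 1 + a + β + β a/(2P)`, contradiction. -/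
def N_NON : Prop :=
  ∀ P Q M E : ℝ, 0 < P → 0 < Q → 0 < M → 0 < P + E → 0 < Q + E →
    2 * P + 2 * Q + M + 2 * E = 1 → ∃ B₀ : ℝ, 1 ≤ B₀ ∧ ∀ w, ¬ SolC P Q M E B₀ w

/-- **H_DEG** (the signed number of solutions is zero). USES `D_DEG` (project DG; `Pool/Agent/Helper86/DG/D_DEG.lean`), `H_EQN`,
`H_BND`, `N_NON`.

PROOF. `D_DEG` with `m = 6`, `F s w = PC P Q M E (1 + s (B₀ - 1)) w`, `U = {w | ∀ i, 0 < w i}`, `K = Icc (fun _ ↦ δ) (fun _ ↦ R)`, `Z₀ = Z`,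
`Z₁ = ∅` (`N_NON`). -/
def H_DEG : Prop :=
  ∀ (P Q M E : ℝ) (Z : Finset (Fin 6 → ℝ)), 0 < P → 0 < Q → 0 < M → 0 < P + E → 0 < Q + E →
    2 * P + 2 * Q + M + 2 * E = 1 → (∀ w, w ∈ Z ↔ SolC P Q M E 1 w) →
    (∀ w ∈ Z, jac (PC P Q M E 1) w ≠ 0) → ∑ w ∈ Z, sg (jac (PC P Q M E 1) w) = 0

/-! ## Part K: the Kähler-Einstein metrics -/

/-- **K_ALL** (the Kähler-Einstein metrics).

PROOF. Let `w` be a solution with `B = 1` and `w = ![|h-k|, |h+k|, 2|h|, 2|k|, |h|, |k|]`, all entries positive. Replacing `(h, k)` by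
`(±h, ±k)` only exchanges `w 0` and `w 1` (which is `s1`, and `EqC` is symmetric), so let `h, k > 0`, `h ≠ k`; the exchange of `h, k` and
`P, Q` (`s2`) reduces to `h > k`. Then `(a,b,u,v,s,t) = (h-k, h+k, 2h, 2k, h, k)`. Equation of `s`: `cs u s s = 1`, `cs t b s = 1`,
`cs t a s = -1`, so `h = s = 1 - (P+E) = P + 2Q + M + E`. Equation of `t`: `cs v t t = 1`, `cs s b t = 1`, `cs s a t = 1`, so
`k = t = 1 - (Q+E) - 2P = Q + M + E`. So `w = kc P Q M E`. Conversely `kc P Q M E` is a solution: the triangles `(a,b,u)`, `(a,v,b)`,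
`(a,t,s)`, `(s,t,b)`, `(s,s,u)`, `(t,t,v)` are degenerate (the last one is the sum of the two others), all cosines are `±1`.
The four metrics are different: `w 0 < w 1` for `kc`, `w 4 > w 5` for `kc P Q M E` and `w 4 < w 5` for `s2 (kc Q P M E)`. -/
def K_ALL : Prop :=
  ∀ P Q M E : ℝ, 0 < P → 0 < Q → 0 < M → 0 < P + E → 0 < Q + E →
    2 * P + 2 * Q + M + 2 * E = 1 →
    (∀ w, SolC P Q M E 1 w ∧ KC w ↔ w = kc P Q M E ∨ w = s1 (kc P Q M E) ∨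
      w = s2 (kc Q P M E) ∨ w = s1 (s2 (kc Q P M E))) ∧
    ({kc P Q M E, s1 (kc P Q M E), s2 (kc Q P M E), s1 (s2 (kc Q P M E))} :
      Finset (Fin 6 → ℝ)).card = 4

/-- **L_EQV** (equivariance).

PROOF. `PC P Q M E B (s1 w) = s1 (PC P Q M E B w)` and `PC Q P M E B (s2 w) = s2 (PC P Q M E B w)` for all `w` (`fin_cases`, `ring`);
`s1`, `s2` are linear involutions, so the derivatives are conjugate and the determinants equal (`LinearMap.det_conj`; see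
`Pool/Agent/Helper90/DG/K_EQV.lean`). -/
def L_EQV : Prop :=
  ∀ (P Q M E B : ℝ) (w : Fin 6 → ℝ), jac (PC P Q M E B) (s1 w) = jac (PC P Q M E B) w ∧
    jac (PC Q P M E B) (s2 w) = jac (PC P Q M E B) w

/-- **L_LIN** (the linearised equations at `kc P Q M E`). Proved by helper58 (`Pool/Agent/Helper58/DH/LLIN.lean`). -/
def L_LIN : Prop :=
  ∀ (P Q M E : ℝ) (w : Fin 6 → ℝ), 0 < P → 0 < Q → 0 < M → 0 < P + E → 0 < Q + E →
    qc (P + Q) Q (Q + E) (Q + M + E) ≠ 0 →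
    ∀ a b u v s t : ℝ, a = P + Q → s = P + 2 * Q + M + E → t = Q + M + E →
    b = P + 3 * Q + 2 * M + 2 * E → u = 2 * P + 4 * Q + 2 * M + 2 * E →
    v = 2 * Q + 2 * M + 2 * E →
    w 0 * (b * u * v * s * t) + a * ((P + E) * (w 2 - w 0 - w 1) * (v * s * t) +
      (Q + E) * (w 1 - w 0 - w 3) * (u * s * t) + M * (w 4 - w 5 - w 0) * (b * u * v)) = 0 →
    w 1 * (a * u * v * s * t) + b * ((P + E) * (w 2 - w 0 - w 1) * (v * s * t) -
      (Q + E) * (w 1 - w 0 - w 3) * (u * s * t) - M * (w 1 - w 4 - w 5) * (a * u * v)) = 0 →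
    w 2 * (a * b * s ^ 2) - u * (2 * Q * (w 2 - w 0 - w 1) * s ^ 2 +
      M * (w 2 - 2 * w 4) * (a * b)) = 0 →
    w 3 * (a * b * t ^ 2) + v * (2 * P * (w 1 - w 0 - w 3) * t ^ 2 -
      M * (w 3 - 2 * w 5) * (a * b)) = 0 →
    2 * s * t * a * b * w 4 + (P + E) * (w 2 - 2 * w 4) * (t * a * b) +
      2 * Q * s ^ 2 * (a * (w 1 - w 4 - w 5) - b * (w 4 - w 5 - w 0)) = 0 →
    2 * s * t * a * b * w 5 + (Q + E) * (w 3 - 2 * w 5) * (s * a * b) +
      2 * P * t ^ 2 * (a * (w 1 - w 4 - w 5) + b * (w 4 - w 5 - w 0)) = 0 → w = 0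

/-- **L_DET** (`kc P Q M E` is nondegenerate). USES `L_LIN`.

PROOF. As `K_DET` of project DG (`Pool/Agent/Helper85/DG/K_DET.lean`). If the determinant is `0` there is `w ≠ 0` with
`fderiv ℝ (PC P Q M E 1) (kc P Q M E) w = 0`, so `s ↦ PC P Q M E 1 (kc P Q M E + s • w)` has derivative `0` at `0`. Its components are
polynomials in `s`; substitute `1 = 2P + 2Q + M + 2E`. With the names of `L_LIN` the components `0, 1, 2, 3` of the derivative are twice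
the left sides of the first four equations of `L_LIN`, the components `4, 5` are equal to the left sides of the last two (at a solution
the derivative of `PC_i` is the multiplier of `H_EQN` (1) times the linearised equation, and for a degenerate triangle `z = x + y`,
`δ = dz - dx - dy`: `d cs y z x = x δ/(y z)`, `d cs x z y = y δ/(x z)`, `d cs x y z = -z δ/(x y)`; the triangles are `(a,b,u)`, `(a,v,b)`,
`(a,t,s)`, `(s,t,b)`, `(s,s,u)`, `(t,t,v)`). Prove each by `ring` after the substitution. So `w = 0`. -/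
def L_DET : Prop :=
  ∀ P Q M E : ℝ, 0 < P → 0 < Q → 0 < M → 0 < P + E → 0 < Q + E →
    2 * P + 2 * Q + M + 2 * E = 1 → qc (P + Q) Q (Q + E) (Q + M + E) ≠ 0 →
    jac (PC P Q M E 1) (kc P Q M E) ≠ 0

/-- **C_POS** (signs of `qc`). Proved by helper58 (`Pool/Agent/Helper58/DH/CPOS.lean`). -/
def C_POS : Prop :=
  (∀ P Q M E : ℝ, 0 < P + E → 0 < Q + E → 0 < M → E ≤ 0 →
    0 < qc (P + Q) Q (Q + E) (Q + M + E)) ∧
  ∀ P Q M E : ℝ, 0 < P → 0 < Q → 0 < M → 0 ≤ E → E ≤ P → E ≤ Q → 2 * E ≤ M →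
    (P - E) * M * (4 * Q * E - M ^ 2) ≤ 8 * (Q + M / 2) ^ 4 →
    0 < qc (P + Q) Q (Q + E) (Q + M + E)

/-- **L_SGN** (sign `+1`). USES `L_DET`, `C_POS`.

PROOF. Let `N(P,Q,M,E) = 2P + 2Q + M + 2E` and `g(P,Q,M,E) = jac (PC P' Q' M' E' 1) (kc P' Q' M' E')` where `P' = P/N` etc. Let
`D = {(P,Q,M,E) | 0 < P, Q, M, P+E, Q+E, 0 < qc (P+Q) Q (Q+E) (Q+M+E)}` (there `N > 0`). `g` is continuous on `D` (`PC` is a polynomial in the
parameters and `w`; the determinant of the matrix of the partial derivatives) and `≠ 0` by `L_DET` (`qc` is homogeneous of degree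
`8`). (1) On the path `τ ↦ (P, Q, M, τ E)`, `τ ∈ [0,1]`, in `D` by `PosPath` (`P + τE`, `Q + τE > 0` by convexity), `g` has constant sign
(intermediate value theorem), so `g(P,Q,M,E)` and `g(P,Q,M,0)` have the same sign. (2) The segment from `(P,Q,M,0)` to
`(1/6,1/6,1/3,0)` is in `D` by `C_POS` (first part with `E = 0`). (3) `g(1/6,1/6,1/3,0) > 0`: `kc = (1/3, 4/3, 5/3, 1, 5/6, 1/2)`, the
matrix of the partial derivatives is explicit and rational, its determinant is about `0.0117`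
(`Matrix.det_succ_row_zero`, `norm_num`; see `K_SGN` of project DG). -/
def L_SGN : Prop :=
  ∀ P Q M E : ℝ, 0 < P → 0 < Q → 0 < M → 0 < P + E → 0 < Q + E →
    2 * P + 2 * Q + M + 2 * E = 1 → PosPath P Q M E →
    sg (jac (PC P Q M E 1) (kc P Q M E)) = 1

/-! ## Part F: the end -/

/-- **F_PAR** (the theorem for real parameters). USES `H_DEG`, `K_ALL`, `L_EQV`, `L_SGN`.

PROOF. All four Kähler-Einstein metrics have `sg (jac …) = 1`: `L_SGN` for `(P,Q,M,E)` and for `(Q,P,M,E)`, and `L_EQV`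
(`jac (PC P Q M E 1) (s2 (kc Q P M E)) = jac (PC Q P M E 1) (kc Q P M E)`). (1) If there were no non-Kähler solution, the set of the
solutions would be the set of these four (`K_ALL`), all nondegenerate, with sum of signs `4`; by `H_DEG` it is `0`. (2) For `Z` as
in the second statement `0 = ∑_Z sg = 4 + ∑_{not Kähler} sg ≥ 4 - #(not Kähler)`; `Y` is the set of the non-Kähler elements. -/
def F_PAR : Prop :=
  ∀ P Q M E : ℝ, 0 < P → 0 < Q → 0 < M → 0 < P + E → 0 < Q + E →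
    2 * P + 2 * Q + M + 2 * E = 1 → PosPath P Q M E → PosPath Q P M E →
    (∃ w, SolC P Q M E 1 w ∧ ¬ KC w) ∧
    ∀ Z : Finset (Fin 6 → ℝ), (∀ w, w ∈ Z ↔ SolC P Q M E 1 w) →
      (∀ w ∈ Z, jac (PC P Q M E 1) w ≠ 0) → ∃ Y ⊆ Z, 4 ≤ Y.card ∧ ∀ w ∈ Y, ¬ KC w

/-- **F_POS** (the positivity condition for the integral parameters). USES `C_POS`.

PROOF. (1) `k = 2p + 2q + m - 2 > 0`, `P = p/k`, `E = -1/k`; for `τ ∈ [0,1]` `C_POS` (first part) with `τ E ≤ 0`, `P + τE ≥ (p-1)/k > 0`, the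
same for `Q`. (2) `k = 2p + 2q + 2r + 2`, `P = p/k`, `Q = q/k`, `M = 2r/k`, `E = 1/k`. `C_POS` (second part) with `τE` instead of `E`;
multiply the last condition by `k⁴`: to show `(p - τ) (2r) (4qτ - 4r²) ≤ 8 (q + r)⁴`, i.e. `(p-τ) r (qτ - r²) ≤ (q+r)⁴`. If
`qτ ≤ r²` clear. If `p = 1`: `(p - τ) r (qτ - r²) ≤ r q ≤ (q+r)⁴`. If `p ≥ 2`: with `y = 1 - τ`
`(p-1)(q-r²) - (p-τ)(qτ-r²) = y (q (p-2) + y q + r²) ≥ 0` (`ring`), so it is enough to have it for `τ = 1`: if `q ≤ p` this is the hypothesis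
(`max p q = p`, `min p q = q`); if `p < q`: `(p-1) r (q-r²) ≤ p r q`... here the hypothesis is not needed:
`(p-1) r (q - r²) ≤ q r q ≤ (q+r)⁴` since `p < q`. -/
def F_POS : Prop :=
  (∀ p q m : ℕ, 2 ≤ p → 2 ≤ q → 1 ≤ m →
    let k : ℝ := 2 * p + 2 * q + m + 2 * (-1)
    PosPath (p / k) (q / k) (m / k) (-1 / k)) ∧
  ∀ p q r : ℕ, 1 ≤ p → 1 ≤ q → 1 ≤ r →
    ((max p q : ℤ) - 1) * r * ((min p q : ℤ) - r ^ 2) ≤ ((min p q : ℤ) + r) ^ 4 →
    let k : ℝ := 2 * p + 2 * q + (2 * r : ℕ) + 2 * 1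
    PosPath (p / k) (q / k) ((2 * r : ℕ) / k) (1 / k)

/-- The metric `x` is a nondegenerate solution of `Ric = g/2`. -/
def NonDegC (d : Fin 6 → ℝ) (A : Fin 6 → Fin 6 → Fin 6 → ℝ) (x : Fin 6 → ℝ) : Prop :=
  ∀ w : Fin 6 → ℝ, (∀ k, HasDerivAt (fun s : ℝ ↦ ric d A (x + s • w) k) 0 0) → w = 0

/-- The conclusion: there is a non-Kähler invariant Einstein metric, and there are at least four if all the invariant
Einstein metrics of constant `1/2` are nondegenerate. -/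
def Concl (ε p q m : ℝ) : Prop :=
  (∃ x : Fin 6 → ℝ, (∀ i, 0 < x i) ∧ (∀ k, ric (dF ε p q m) (AF ε p q m) x k = 1 / 2) ∧ ¬ KC x) ∧
  ∀ Z : Finset (Fin 6 → ℝ),
    (∀ x, x ∈ Z ↔ (∀ i, 0 < x i) ∧ ∀ k, ric (dF ε p q m) (AF ε p q m) x k = 1 / 2) →
    (∀ x ∈ Z, NonDegC (dF ε p q m) (AF ε p q m) x) →
    ∃ Y ⊆ Z, 4 ≤ Y.card ∧ ∀ x ∈ Y, ¬ KC x

/-- **F_RIC** (the Ricci components and the equations).

PROOF. `k = 2p + 2q + m + 2ε`, `P = p/k` etc. Expand the double sum (`Fin.sum_univ_succ`, decidable `ind`). For positive `x`: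
`2 x_e ric_e = 1 - (1/d_e) ∑_{ij} A_{ije} cs (x i) (x j) (x e)`, and this is the right side of the equation `e` of `EqC` with `B = 1`,
for example `e = 0`: `1 - α cs(x1,x2;x0) - β cs(x1,x3;x0) - M cs(x4,x5;x0)` with `α = (p+ε)/k = P + E`. So `x_e = 2 x_e ric_e` iff
`ric_e = 1/2`. -/
def F_RIC : Prop :=
  ∀ ε p q m : ℝ, 0 < p → 0 < q → 0 < m → 0 < p + ε → 0 < q + ε → 0 < 2 * p + 2 * q + m + 2 * ε →
    ∀ x : Fin 6 → ℝ, (∀ i, 0 < x i) →
      let k : ℝ := 2 * p + 2 * q + m + 2 * ε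
      let R := ric (dF ε p q m) (AF ε p q m) x
      (2 * x 0 * R 0 = 1 - (p / k + ε / k) * cs (x 1) (x 2) (x 0) -
        (q / k + ε / k) * cs (x 1) (x 3) (x 0) - m / k * cs (x 4) (x 5) (x 0)) ∧
      (2 * x 1 * R 1 = 1 - (p / k + ε / k) * cs (x 0) (x 2) (x 1) -
        (q / k + ε / k) * cs (x 0) (x 3) (x 1) - m / k * cs (x 4) (x 5) (x 1)) ∧
      (2 * x 2 * R 2 = 1 - 2 * (q / k) * cs (x 0) (x 1) (x 2) - m / k * cs (x 4) (x 4) (x 2)) ∧
      (2 * x 3 * R 3 = 1 - 2 * (p / k) * cs (x 0) (x 1) (x 3) - m / k * cs (x 5) (x 5) (x 3)) ∧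
      (2 * x 4 * R 4 = 1 - (p / k + ε / k) * cs (x 2) (x 4) (x 4) -
        q / k * (cs (x 5) (x 1) (x 4) + cs (x 5) (x 0) (x 4))) ∧
      (2 * x 5 * R 5 = 1 - (q / k + ε / k) * cs (x 3) (x 5) (x 5) -
        p / k * (cs (x 4) (x 1) (x 5) + cs (x 4) (x 0) (x 5)))

/-- **F_INT** (the theorem for the flag manifolds). USES `F_PAR`, `F_POS`, `F_RIC`, `H_EQN`.

PROOF. By `F_RIC` the metrics with `ric = 1/2` are the solutions `SolC (p/k) (q/k) (m/k) (ε/k) 1`. `F_PAR` with `F_POS` (for `(p,q)` and for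
`(q,p)`; the condition is symmetric and `k` is symmetric). Nondegenerate in the sense of `NonDegC` implies `jac (PC …) x ≠ 0`: if
`fderiv … w = 0`, `w ≠ 0`, then `s ↦ PC … (x + s • w)` has derivative `0` at `0`; for small `s` the component `e` of `PC` is a smooth
positive function `m_e(s)` (the multiplier of `H_EQN` (1)) times `x_e - 2 x_e ric_e = x_e (1 - 2 ric_e)`, which vanishes at `s = 0`, so the
derivative of `ric_e` along the line is `0`; contradiction to `NonDegC`. -/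
def F_INT : Prop :=
  (∀ p q m : ℕ, 2 ≤ p → 2 ≤ q → 1 ≤ m → Concl (-1) p q m) ∧
  ∀ p q r : ℕ, 1 ≤ p → 1 ≤ q → 1 ≤ r →
    ((max p q : ℤ) - 1) * r * ((min p q : ℤ) - r ^ 2) ≤ ((min p q : ℤ) + r) ^ 4 →
    Concl 1 p q (2 * r : ℕ)

end Pool.Agent.Helper58.DH
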