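import Pool.Agent.Helper58.DH.Goals

/-!
# Project DH (MP_06d934_gt): second part, ALL the spaces `Sp(p+q+r)/(U(p) × U(q) × Sp(r))`

If `Q` is small compared with `P` then no solution has `s = t`, and the signed number of solutions is zero on each side
`s < t`, `s > t`.
-/

set_option autoImplicit false

namespace Pool.Agent.Helper58.DH

open Pool.Agent.Helper58.DG

/-- The regime: `Q` is small compared with `P`. -/
def Reg30 (P Q M E : ℝ) : Prop :=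
  0 < P ∧ 0 < Q ∧ 0 < M ∧ 0 ≤ E ∧ 2 * P + 2 * Q + M + 2 * E = 1 ∧ M ≤ Q ∧ 2 * E ≤ Q ∧ 30 * Q ≤ P

/-- **S_ST** (no solution with `s = t`).

PROOF. Names `a, b, u, v, s, t` for `w 0, …, w 5`, `α = P + E`, `β = Q + E`, `σ = a + b`. Suppose `s = t`; let `h = 2 s (1 - s) ≤ 1/2`.
(0) `2α + 2Q + M = 1`; `1 ≤ 2P + 4Q ≤ (32/15) P`, so `15/32 ≤ P ≤ α ≤ 1/2`; `M ≤ Q ≤ 1/60`, `β ≤ 3Q/2 ≤ 1/40`.
(1) `cs s b s + cs s a s = σ/(2s)`, so the equations of `s` and `t` are `α u + Q σ = h` and `β v + P σ = h`. As `P - Q = α - β`: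
`α u = (α - β) σ + β v`, i.e. `σ - u = (β/α)(σ - v)`.
(2) `σ ≤ 1/(2P) ≤ 16/15`.
(3) The equation of `v`: `v = B - P (a² + b² - v²)/(ab) - M (1 - v²/(2s²))` with `B ≥ 1 ≥ M` gives `P v²/(ab) ≤ v + P (a²+b²)/(ab)`, so
`v² ≤ v a b/P + a² + b² ≤ σ² (1 + 8v/15)` (`ab ≤ σ²/4`, `1/(4P) ≤ 8/15`). With `σ² ≤ 256/225`: `v ≤ 3/2`; then `v² ≤ (9/5) σ²`,
`v ≤ (27/20) σ`.
(4) `b`·(equation of `a`) + `a`·(equation of `b`), with `b cs b u a + a cs a u b = u` (the same for `v`) and `cs s s a = 1 - a²/(2s²)`: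
`2ab = σ(1-M) - α u - β v + M a b σ/(2s²) ≥ σ(1-M) - (α-β)σ - 2βv = σ(α+β+2Q) - 2βv ≥ σ(α + 2Q - (17/10)β) ≥ σ(α - (11/20) Q) ≥ (9/20) σ`
(`1 - M = 2α + 2Q`, `β ≤ 3Q/2`). With `4ab ≤ σ²`: `σ ≥ 9/10`, `ab ≥ 81/400 ≥ 1/5`.
(5) `2s(1-s) = h ≥ P σ ≥ (15/32)(9/10)`, so `s ≥ 3/10` (for `s < 3/10` we have `2s(1-s) < 0.42`).
(6) Let `η = s - 1/2`, so `h = 1/2 - 2η²`. From (1) `α(u - 1) = h - Qσ - α = -2η² + Q(1-σ) + M/2`. The equation of `u`: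
`B = u + Q (a²+b²-u²)/(ab) + M (1 - u²/(2s²))`, and `(a²+b²-u²)/(ab) = -2 + (σ²-u²)/(ab)`.
`(σ²-u²)/(ab) ≤ 61/100`: if `v ≥ σ` it is `≤ 0`; otherwise `0 < σ - u ≤ (β/α) σ`, `σ + u ≤ 2σ`, so it is
`≤ 2σ²(β/α)·5 ≤ 10 (256/225)(1/40)(32/15)`.
`α u/s = 2(1-s) - Qσ/s = 1 - ζ` with `ζ = 2η + Qσ/s`, so `u²/(2s²) = (1-ζ)²/(2α²) ≥ 2(1-ζ)² ≥ 2 - 4ζ`, and
`M/(2α) + M(1 - u²/(2s²)) ≤ M(2Q+M)/(2α) + 4Mζ` (`1/(2α) = 1 + (2Q+M)/(2α)`). Altogether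
`B - 1 ≤ (-2η²/α + 8Mη) + 4MQσ/s + M(2Q+M)/(2α) + Q(1-σ)/α - 2Q + (61/100) Q`, where `-2η²/α + 8Mη ≤ -4η² + 8Mη ≤ 4M² ≤ Q/15`,
`4MQσ/s ≤ Q·4(1/60)(16/15)(10/3) ≤ Q/4`, `M(2Q+M)/(2α) ≤ 3MQ(16/15) ≤ Q/15`, `Q(1-σ)/α ≤ Q(1/10)(32/15) ≤ Q/4`. The sum is `< 0`:
contradiction to `B ≥ 1`. -/
def S_ST : Prop :=
  ∀ (P Q M E B : ℝ) (w : Fin 6 → ℝ), Reg30 P Q M E → 1 ≤ B → SolC P Q M E B w → w 4 ≠ w 5

/-- **H_DEG2** (the signed numbers of the solutions on the two sides are zero). USES `D_DEG` (project DG), `H_EQN`, `H_BND`,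
`N_NON`, `S_ST`.

PROOF. As `H_DEG` (`Pool/Agent/Helper24/DH/H_DEG.lean`): `D_DEG` with `m = 6`, `F s w = PC P Q M E (1 + s (B₀ - 1)) w`, now with
`U = {w | (∀ i, 0 < w i) ∧ w 4 < w 5}` (or `w 5 < w 4`), `Z₀ = Z`, `Z₁ = ∅`. For `K` take the image under the second projection of
`{(s, w) | s ∈ [0,1], w ∈ Icc (fun _ ↦ δ) (fun _ ↦ R), F s w = 0, w 4 ≤ w 5}`: this set is compact (closed in a compact set), and by `S_ST`
its elements have `w 4 ≠ w 5`, so `K ⊆ U`; it contains the zeros in `U` by `H_BND`. -/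
def H_DEG2 : Prop :=
  ∀ (P Q M E : ℝ) (Z : Finset (Fin 6 → ℝ)), Reg30 P Q M E →
    ((∀ w, w ∈ Z ↔ SolC P Q M E 1 w ∧ w 4 < w 5) ∨ ∀ w, w ∈ Z ↔ SolC P Q M E 1 w ∧ w 5 < w 4) →
    (∀ w ∈ Z, jac (PC P Q M E 1) w ≠ 0) → ∑ w ∈ Z, sg (jac (PC P Q M E 1) w) = 0

/-- **F_PAR2** (the theorem for the parameters of the regime). USES `H_DEG2`, `S_ST`, `K_ALL`, `L_EQV`, `L_SGN`.

PROOF. `x₂ = s2 (kc Q P M E)` and `s1 x₂` have `w 4 < w 5` and sign `+1` (`L_SGN` for `(Q,P,M,E)`, `L_EQV`); `x₁ = kc P Q M E` and `s1 x₁` have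
`w 5 < w 4` and equal signs (`L_EQV`). (1) If there were no non-Kähler solution with `w 4 < w 5` then the solutions with `w 4 < w 5` would be
`x₂, s1 x₂` (`K_ALL`), nondegenerate, with sum of signs `2`, but it is `0` by `H_DEG2`. (2) Let `Z` be as in the second statement. The sum over
the solutions with `w 4 < w 5` is `0 = 2 + ∑_{not Kähler}`, so there are at least two non-Kähler ones; the sum over those with
`w 5 < w 4` is `0 = 2ε + ∑_{not Kähler}` with `ε = sg (jac …) x₁ = ±1` (nondegenerate), so again there are at least two. -/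
def F_PAR2 : Prop :=
  ∀ P Q M E : ℝ, Reg30 P Q M E → PosPath Q P M E →
    (∃ w, SolC P Q M E 1 w ∧ ¬ KC w) ∧
    ∀ Z : Finset (Fin 6 → ℝ), (∀ w, w ∈ Z ↔ SolC P Q M E 1 w) →
      (∀ w ∈ Z, jac (PC P Q M E 1) w ≠ 0) → ∃ Y ⊆ Z, 4 ≤ Y.card ∧ ∀ w ∈ Y, ¬ KC w

/-- **F_POS2** (the remaining parameters of the family C are in the regime). USES `C_POS`.

PROOF. `k = 2p + 2q + 2r + 2`. From the hypothesis `q > r²`, so `q ≥ r² + 1 ≥ 2r` and `q ≥ 2`: `M ≤ Q`, `2E ≤ Q`. `30 q ≤ p`: it is enough that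
`30 q r (q - r²) ≤ (q + r)⁴` (then `(p-1) r (q-r²) > 30 q r (q-r²)`, so `p - 1 > 30 q`), i.e.
`q² (q² + 4qr + 6r² - 30r) + 34 q r³ + r⁴ ≥ 0`: clear for `r ≥ 5`; for `r = 2, 3, 4` the bracket is positive as `q ≥ r² + 1`; for `r = 1` it
is `q⁴ + 4q³ - 24q² + 34q + 1 ≥ 0`, clear for `q ≥ 3` (`q² (q²+4q-24) ≥ -3q²` …; or `q = 2, 3` by computation and `q² + 4q ≥ 24` for
`q ≥ 4`). `PosPath Q P M E`: `C_POS` (second part) for `(Q, P, M, τE)`: the condition times `k⁴` is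
`(q-τ)(2r)(4pτ - 4r²) ≤ 8 (p+r)⁴`, and the left side is `≤ 8 q r p ≤ 8 p² r ≤ 8 (p+r)⁴`. -/
def F_POS2 : Prop :=
  ∀ p q r : ℕ, 1 ≤ q → q ≤ p → 1 ≤ r →
    ((q : ℤ) + r) ^ 4 < ((p : ℤ) - 1) * r * ((q : ℤ) - r ^ 2) →
    let k : ℝ := 2 * p + 2 * q + (2 * r : ℕ) + 2 * 1
    Reg30 (p / k) (q / k) ((2 * r : ℕ) / k) (1 / k) ∧
      PosPath (q / k) (p / k) ((2 * r : ℕ) / k) (1 / k)

/-- **F_SYM** (exchange of `p` and `q`).

PROOF. Let `π = (2 3)(4 5)`, so that `s2 x = x ∘ π`. `dF ε p q m (π k) = dF ε q p m k` and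
`AF ε p q m (π i) (π j) (π k) = AF ε q p m i j k` (`fin_cases` or `decide` for `ind`, or `Multiset.map`), so
`ric (dF ε p q m) (AF ε p q m) x (π k) = ric (dF ε q p m) (AF ε q p m) (s2 x) k` (reindex the sums by `π`), and `KC (s2 x) ↔ KC x` (exchange
`h` and `k`; `|h - k| = |k - h|`). `s2` is a linear involution, so it transports finite sets, `NonDegC` and the cardinality. -/
def F_SYM : Prop := ∀ ε p q m : ℝ, Concl ε p q m → Concl ε q p m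

/-- **F_ALL** (the theorem for all the flag manifolds of the families B, C, D). USES `F_INT`, `F_PAR2`, `F_POS2`, `F_RIC`, `F_SYM`.

PROOF. The first part is `F_INT`. The second part for `q ≤ p`: if the inequality of `F_INT` holds, `F_INT`; otherwise `F_POS2` and `F_PAR2`,
with the passage from the parameters to `Concl` exactly as in the proof of `F_INT` (`Pool/Agent/Helper5/DH/F_INT.lean`). For `p < q`: the
case `(q, p)` and `F_SYM`. -/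
def F_ALL : Prop :=
  (∀ p q m : ℕ, 2 ≤ p → 2 ≤ q → 1 ≤ m → Concl (-1) p q m) ∧
  ∀ p q r : ℕ, 1 ≤ p → 1 ≤ q → 1 ≤ r → Concl 1 p q (2 * r : ℕ)

end Pool.Agent.Helper58.DH
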