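import Pool.Agent.Helper58.DH.Goals

/-!
# Project DH (MP_06d934_gt): L_LIN, the linearised equations at the Kähler-Einstein metric
-/

set_option autoImplicit false

namespace Pool.Agent.Helper58.DH

theorem sys_zero {a Q c t e f g h : ℝ} (ha : 0 < a) (ht : 0 < t) (hq : qc a Q c t ≠ 0)
    (E1 : (-8 * a ^ 2 * Q + 4 * a ^ 2 * c - 4 * a ^ 2 * t - 16 * a * Q * t + 8 * a * c * t - 16 * a *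
      t ^ 2 - 8 * c * t ^ 2) * e +
      (8 * a * c * t + 8 * c * t ^ 2) * f +
      (2 * a ^ 2 * c - 2 * a ^ 2 * t - 4 * a * c * t + 4 * a * t ^ 2) * g +
      (-2 * a ^ 2 * c + 2 * a ^ 2 * t - 4 * a * c * t + 4 * a * t ^ 2) * h = 0)
    (E2 : (8 * a ^ 2 * t - 16 * a * Q * t + 8 * a * c * t + 8 * a * t ^ 2 - 16 * Q * t ^ 2 + 8 * c *
      t ^ 2) * e +
      (4 * a ^ 2 * c - 4 * a ^ 2 * t + 8 * a * c * t - 24 * a * t ^ 2 + 16 * Q * t ^ 2 - 8 * c *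
      t ^ 2) * f +
      (-2 * a ^ 2 * c + 2 * a ^ 2 * t - 4 * a * c * t + 4 * a * t ^ 2) * g +
      (-2 * a ^ 2 * c + 2 * a ^ 2 * t - 4 * a * c * t + 4 * a * t ^ 2) * h = 0)
    (E3 : (4 * a ^ 2 * t - 8 * a * Q * t + 4 * a * c * t) * e +
      (4 * a * c * t) * f +
      (-2 * a ^ 2 * Q + 1 * a ^ 2 * c - 1 * a ^ 2 * t - 2 * a * Q * t - 2 * a * c * t) * g +
      (2 * a ^ 2 * Q - 1 * a ^ 2 * c + 1 * a ^ 2 * t + 2 * a * Q * t - 2 * a * c * t) * h = 0)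
    (E4 : (4 * a ^ 2 * t - 8 * a * Q * t + 4 * a * c * t + 8 * a * t ^ 2 - 16 * Q * t ^ 2 + 8 * c * t
      ^ 2) * e +
      (-4 * a * c * t - 8 * c * t ^ 2) * f +
      (2 * a ^ 2 * Q - 1 * a ^ 2 * c + 1 * a ^ 2 * t + 2 * a * Q * t - 2 * a * t ^ 2 + 4 * Q * t
      ^ 2) * g +
      (-2 * a ^ 2 * Q + 1 * a ^ 2 * c - 1 * a ^ 2 * t - 2 * a * Q * t + 4 * a * c * t - 6 * a * t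
      ^ 2 + 4 * Q * t ^ 2 + 4 * c * t ^ 2 - 4 * t ^ 3) * h = 0) :
    e = 0 ∧ f = 0 ∧ g = 0 ∧ h = 0 := by
  have k0 : 4 * a * qc a Q c t * e = 0 := by
    unfold qc
    linear_combination
      (4 * a ^ 4 * Q * c - 4 * a ^ 4 * Q * t - 2 * a ^ 4 * c ^ 2 + 4 * a ^ 4 * c * t - 2 * a ^ 4
      * t ^ 2 - 4 * a ^ 3 * Q ^ 2 * c + 4 * a ^ 3 * Q ^ 2 * t + 4 * a ^ 3 * Q * c ^ 2 + 8 * a ^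
      3 * Q * c * t - 28 * a ^ 3 * Q * t ^ 2 - 1 * a ^ 3 * c ^ 3 - 3 * a ^ 3 * c ^ 2 * t + 17 *
      a ^ 3 * c * t ^ 2 - 13 * a ^ 3 * t ^ 3 - 12 * a ^ 2 * Q ^ 2 * c * t + 44 * a ^ 2 * Q ^ 2 *
      t ^ 2 + 10 * a ^ 2 * Q * c ^ 2 * t - 16 * a ^ 2 * Q * c * t ^ 2 - 18 * a ^ 2 * Q * t ^ 3 -
      2 * a ^ 2 * c ^ 3 * t + 10 * a ^ 2 * c ^ 2 * t ^ 2 - 2 * a ^ 2 * c * t ^ 3 - 6 * a ^ 2 * t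
      ^ 4 - 16 * a * Q ^ 3 * t ^ 2 + 40 * a * Q ^ 2 * t ^ 3 - 8 * a * Q * t ^ 4 + 2 * a * c ^ 3
      * t ^ 2 + 8 * a * c ^ 2 * t ^ 3 - 10 * a * c * t ^ 4 - 16 * Q ^ 3 * t ^ 3 + 8 * Q ^ 2 * t
      ^ 4 - 4 * Q * c ^ 2 * t ^ 3 + 4 * Q * c * t ^ 4 + 4 * c ^ 3 * t ^ 3 - 4 * c ^ 2 * t ^ 4) *
      E1 +
      (-8 * a ^ 3 * Q * c * t + 8 * a ^ 2 * Q ^ 2 * c * t - 4 * a ^ 2 * Q * c ^ 2 * t - 12 * a ^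
      2 * Q * c * t ^ 2 + 4 * a ^ 2 * c ^ 2 * t ^ 2 - 4 * a ^ 2 * c * t ^ 3 + 16 * a * Q ^ 2 * c
      * t ^ 2 - 4 * a * Q * c ^ 2 * t ^ 2 - 4 * a * Q * c * t ^ 3 + 2 * a * c ^ 3 * t ^ 2 + 4 *
      a * c ^ 2 * t ^ 3 - 6 * a * c * t ^ 4 + 8 * Q ^ 2 * c * t ^ 3 + 4 * Q * c ^ 2 * t ^ 3 - 4
      * Q * c * t ^ 4 + 4 * c ^ 3 * t ^ 3 - 4 * c ^ 2 * t ^ 4) * E2 +
      (4 * a ^ 4 * Q * c - 4 * a ^ 4 * Q * t + 2 * a ^ 4 * c ^ 2 - 4 * a ^ 4 * c * t + 2 * a ^ 4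
      * t ^ 2 + 32 * a ^ 3 * Q * c * t - 32 * a ^ 3 * Q * t ^ 2 + 2 * a ^ 3 * c ^ 2 * t - 12 * a
      ^ 3 * c * t ^ 2 + 10 * a ^ 3 * t ^ 3 - 16 * a ^ 2 * Q ^ 2 * c * t + 16 * a ^ 2 * Q ^ 2 * t
      ^ 2 + 12 * a ^ 2 * Q * c ^ 2 * t + 44 * a ^ 2 * Q * c * t ^ 2 - 56 * a ^ 2 * Q * t ^ 3 - 4
      * a ^ 2 * c ^ 3 * t - 12 * a ^ 2 * c ^ 2 * t ^ 2 + 32 * a ^ 2 * c * t ^ 3 - 16 * a ^ 2 * t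
      ^ 4 - 32 * a * Q ^ 2 * c * t ^ 2 + 32 * a * Q ^ 2 * t ^ 3 + 32 * a * Q * c ^ 2 * t ^ 2 -
      40 * a * Q * c * t ^ 3 + 8 * a * Q * t ^ 4 - 16 * a * c ^ 3 * t ^ 2 + 8 * a * c ^ 2 * t ^
      3 + 32 * a * c * t ^ 4 - 24 * a * t ^ 5 + 16 * Q * c ^ 2 * t ^ 3 - 32 * Q * c * t ^ 4 + 16
      * Q * t ^ 5 - 16 * c ^ 3 * t ^ 3 + 32 * c ^ 2 * t ^ 4 - 16 * c * t ^ 5) * E3 +
      (4 * a ^ 4 * Q * c - 4 * a ^ 4 * Q * t - 2 * a ^ 4 * c ^ 2 + 4 * a ^ 4 * c * t - 2 * a ^ 4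
      * t ^ 2 + 4 * a ^ 3 * Q * c ^ 2 + 24 * a ^ 3 * Q * c * t - 28 * a ^ 3 * Q * t ^ 2 - 2 * a
      ^ 3 * c ^ 3 + 14 * a ^ 3 * c * t ^ 2 - 12 * a ^ 3 * t ^ 3 - 16 * a ^ 2 * Q ^ 2 * c * t +
      16 * a ^ 2 * Q ^ 2 * t ^ 2 + 20 * a ^ 2 * Q * c ^ 2 * t - 4 * a ^ 2 * Q * c * t ^ 2 - 16 *
      a ^ 2 * Q * t ^ 3 - 4 * a ^ 2 * c ^ 3 * t + 12 * a ^ 2 * c ^ 2 * t ^ 2 - 8 * a ^ 2 * c * t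
      ^ 3 - 16 * a * Q ^ 2 * c * t ^ 2 + 16 * a * Q ^ 2 * t ^ 3 + 16 * a * Q * c ^ 2 * t ^ 2 -
      16 * a * Q * c * t ^ 3) * E4
  have k1 : 4 * a * t * t * qc a Q c t * f = 0 := by
    unfold qc
    linear_combination
      (4 * a ^ 5 * Q * c * t - 4 * a ^ 5 * Q * t ^ 2 - 2 * a ^ 5 * c ^ 2 * t + 4 * a ^ 5 * c * t
      ^ 2 - 2 * a ^ 5 * t ^ 3 - 8 * a ^ 4 * Q ^ 2 * c * t + 8 * a ^ 4 * Q ^ 2 * t ^ 2 + 8 * a ^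
      4 * Q * c ^ 2 * t + 4 * a ^ 4 * Q * c * t ^ 2 - 20 * a ^ 4 * Q * t ^ 3 - 2 * a ^ 4 * c ^ 3
      * t - 4 * a ^ 4 * c ^ 2 * t ^ 2 + 18 * a ^ 4 * c * t ^ 3 - 12 * a ^ 4 * t ^ 4 - 32 * a ^ 3
      * Q ^ 2 * c * t ^ 2 + 56 * a ^ 3 * Q ^ 2 * t ^ 3 + 32 * a ^ 3 * Q * c ^ 2 * t ^ 2 - 44 * a
      ^ 3 * Q * c * t ^ 3 - 12 * a ^ 3 * Q * t ^ 4 - 8 * a ^ 3 * c ^ 3 * t ^ 2 + 12 * a ^ 3 * c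
      ^ 2 * t ^ 3 + 12 * a ^ 3 * c * t ^ 4 - 16 * a ^ 3 * t ^ 5 - 16 * a ^ 2 * Q ^ 3 * t ^ 3 -
      32 * a ^ 2 * Q ^ 2 * c * t ^ 3 + 88 * a ^ 2 * Q ^ 2 * t ^ 4 + 36 * a ^ 2 * Q * c ^ 2 * t ^
      3 - 72 * a ^ 2 * Q * c * t ^ 4 + 12 * a ^ 2 * Q * t ^ 5 - 8 * a ^ 2 * c ^ 3 * t ^ 3 + 26 *
      a ^ 2 * c ^ 2 * t ^ 4 - 12 * a ^ 2 * c * t ^ 5 - 6 * a ^ 2 * t ^ 6 - 32 * a * Q ^ 3 * t ^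
      4 - 8 * a * Q ^ 2 * c * t ^ 4 + 48 * a * Q ^ 2 * t ^ 5 + 8 * a * Q * c ^ 2 * t ^ 4 - 24 *
      a * Q * c * t ^ 5 + 8 * a * Q * t ^ 6 + 2 * a * c ^ 3 * t ^ 4 + 8 * a * c ^ 2 * t ^ 5 - 10
      * a * c * t ^ 6 - 16 * Q ^ 3 * t ^ 5 + 8 * Q ^ 2 * t ^ 6 - 4 * Q * c ^ 2 * t ^ 5 + 4 * Q *
      c * t ^ 6 + 4 * c ^ 3 * t ^ 5 - 4 * c ^ 2 * t ^ 6) * E1 +
      (-8 * a ^ 4 * Q ^ 2 * t ^ 2 - 2 * a ^ 4 * c ^ 2 * t ^ 2 + 4 * a ^ 4 * c * t ^ 3 - 2 * a ^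
      4 * t ^ 4 + 8 * a ^ 3 * Q ^ 3 * t ^ 2 + 12 * a ^ 3 * Q ^ 2 * c * t ^ 2 - 36 * a ^ 3 * Q ^
      2 * t ^ 3 - 6 * a ^ 3 * Q * c ^ 2 * t ^ 2 + 8 * a ^ 3 * Q * c * t ^ 3 - 10 * a ^ 3 * Q * t
      ^ 4 - 1 * a ^ 3 * c ^ 3 * t ^ 2 - 1 * a ^ 3 * c ^ 2 * t ^ 3 + 5 * a ^ 3 * c * t ^ 4 - 3 *
      a ^ 3 * t ^ 5 + 24 * a ^ 2 * Q ^ 3 * t ^ 3 + 32 * a ^ 2 * Q ^ 2 * c * t ^ 3 - 40 * a ^ 2 *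
      Q ^ 2 * t ^ 4 - 18 * a ^ 2 * Q * c ^ 2 * t ^ 3 + 28 * a ^ 2 * Q * c * t ^ 4 - 26 * a ^ 2 *
      Q * t ^ 5 - 2 * a ^ 2 * c ^ 3 * t ^ 3 + 8 * a ^ 2 * c ^ 2 * t ^ 4 - 6 * a ^ 2 * c * t ^ 5
      + 16 * a * Q ^ 3 * t ^ 4 + 24 * a * Q ^ 2 * c * t ^ 4 - 8 * a * Q ^ 2 * t ^ 5 - 12 * a * Q
      * c ^ 2 * t ^ 4 + 20 * a * Q * c * t ^ 5 - 16 * a * Q * t ^ 6 + 2 * a * c ^ 3 * t ^ 4 + 4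
      * a * c ^ 2 * t ^ 5 - 6 * a * c * t ^ 6 + 8 * Q ^ 2 * c * t ^ 5 + 4 * Q * c ^ 2 * t ^ 5 -
      4 * Q * c * t ^ 6 + 4 * c ^ 3 * t ^ 5 - 4 * c ^ 2 * t ^ 6) * E2 +
      (4 * a ^ 5 * Q ^ 2 * c - 4 * a ^ 5 * Q ^ 2 * t - 4 * a ^ 5 * Q * c ^ 2 + 8 * a ^ 5 * Q * c
      * t - 4 * a ^ 5 * Q * t ^ 2 + 1 * a ^ 5 * c ^ 3 - 1 * a ^ 5 * c ^ 2 * t - 1 * a ^ 5 * c *
      t ^ 2 + 1 * a ^ 5 * t ^ 3 + 20 * a ^ 4 * Q ^ 2 * c * t - 20 * a ^ 4 * Q ^ 2 * t ^ 2 - 26 *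
      a ^ 4 * Q * c ^ 2 * t + 64 * a ^ 4 * Q * c * t ^ 2 - 38 * a ^ 4 * Q * t ^ 3 + 8 * a ^ 4 *
      c ^ 3 * t - 16 * a ^ 4 * c ^ 2 * t ^ 2 + 4 * a ^ 4 * c * t ^ 3 + 4 * a ^ 4 * t ^ 4 + 16 *
      a ^ 3 * Q ^ 2 * c * t ^ 2 - 16 * a ^ 3 * Q ^ 2 * t ^ 3 - 48 * a ^ 3 * Q * c ^ 2 * t ^ 2 +
      152 * a ^ 3 * Q * c * t ^ 3 - 104 * a ^ 3 * Q * t ^ 4 + 20 * a ^ 3 * c ^ 3 * t ^ 2 - 62 *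
      a ^ 3 * c ^ 2 * t ^ 3 + 56 * a ^ 3 * c * t ^ 4 - 14 * a ^ 3 * t ^ 5 - 32 * a ^ 2 * Q ^ 2 *
      c * t ^ 3 + 32 * a ^ 2 * Q ^ 2 * t ^ 4 - 12 * a ^ 2 * Q * c ^ 2 * t ^ 3 + 92 * a ^ 2 * Q *
      c * t ^ 4 - 80 * a ^ 2 * Q * t ^ 5 + 12 * a ^ 2 * c ^ 3 * t ^ 3 - 68 * a ^ 2 * c ^ 2 * t ^
      4 + 96 * a ^ 2 * c * t ^ 5 - 40 * a ^ 2 * t ^ 6 - 32 * a * Q ^ 2 * c * t ^ 4 + 32 * a * Q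
      ^ 2 * t ^ 5 + 32 * a * Q * c ^ 2 * t ^ 4 - 40 * a * Q * c * t ^ 5 + 8 * a * Q * t ^ 6 - 16
      * a * c ^ 3 * t ^ 4 + 8 * a * c ^ 2 * t ^ 5 + 32 * a * c * t ^ 6 - 24 * a * t ^ 7 + 16 * Q
      * c ^ 2 * t ^ 5 - 32 * Q * c * t ^ 6 + 16 * Q * t ^ 7 - 16 * c ^ 3 * t ^ 5 + 32 * c ^ 2 *
      t ^ 6 - 16 * c * t ^ 7) * E3 +
      (4 * a ^ 5 * Q ^ 2 * c - 4 * a ^ 5 * Q ^ 2 * t - 4 * a ^ 5 * Q * c ^ 2 + 8 * a ^ 5 * Q * c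
      * t - 4 * a ^ 5 * Q * t ^ 2 + 1 * a ^ 5 * c ^ 3 - 5 * a ^ 5 * c ^ 2 * t + 7 * a ^ 5 * c *
      t ^ 2 - 3 * a ^ 5 * t ^ 3 + 20 * a ^ 4 * Q ^ 2 * c * t - 20 * a ^ 4 * Q ^ 2 * t ^ 2 - 14 *
      a ^ 4 * Q * c ^ 2 * t + 40 * a ^ 4 * Q * c * t ^ 2 - 26 * a ^ 4 * Q * t ^ 3 + 2 * a ^ 4 *
      c ^ 3 * t - 14 * a ^ 4 * c ^ 2 * t ^ 2 + 26 * a ^ 4 * c * t ^ 3 - 14 * a ^ 4 * t ^ 4 + 16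
      * a ^ 3 * Q ^ 2 * c * t ^ 2 - 16 * a ^ 3 * Q ^ 2 * t ^ 3 - 4 * a ^ 3 * Q * c ^ 2 * t ^ 2 +
      40 * a ^ 3 * Q * c * t ^ 3 - 36 * a ^ 3 * Q * t ^ 4 - 2 * a ^ 3 * c ^ 3 * t ^ 2 + 14 * a ^
      3 * c * t ^ 4 - 12 * a ^ 3 * t ^ 5 - 16 * a ^ 2 * Q ^ 2 * c * t ^ 3 + 16 * a ^ 2 * Q ^ 2 *
      t ^ 4 + 20 * a ^ 2 * Q * c ^ 2 * t ^ 3 - 4 * a ^ 2 * Q * c * t ^ 4 - 16 * a ^ 2 * Q * t ^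
      5 - 4 * a ^ 2 * c ^ 3 * t ^ 3 + 12 * a ^ 2 * c ^ 2 * t ^ 4 - 8 * a ^ 2 * c * t ^ 5 - 16 *
      a * Q ^ 2 * c * t ^ 4 + 16 * a * Q ^ 2 * t ^ 5 + 16 * a * Q * c ^ 2 * t ^ 4 - 16 * a * Q *
      c * t ^ 5) * E4
  have k2 : 4 * a * t * t * qc a Q c t * g = 0 := by
    unfold qc
    linear_combination
      (4 * a ^ 5 * Q * c * t - 4 * a ^ 5 * Q * t ^ 2 - 2 * a ^ 5 * c ^ 2 * t + 4 * a ^ 5 * c * t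
      ^ 2 - 2 * a ^ 5 * t ^ 3 - 8 * a ^ 4 * Q ^ 2 * c * t + 8 * a ^ 4 * Q ^ 2 * t ^ 2 + 8 * a ^
      4 * Q * c ^ 2 * t + 4 * a ^ 4 * Q * c * t ^ 2 - 28 * a ^ 4 * Q * t ^ 3 - 2 * a ^ 4 * c ^ 3
      * t - 4 * a ^ 4 * c ^ 2 * t ^ 2 + 26 * a ^ 4 * c * t ^ 3 - 20 * a ^ 4 * t ^ 4 - 32 * a ^ 3
      * Q ^ 2 * c * t ^ 2 + 80 * a ^ 3 * Q ^ 2 * t ^ 3 + 32 * a ^ 3 * Q * c ^ 2 * t ^ 2 - 80 * a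
      ^ 3 * Q * c * t ^ 3 - 8 * a ^ 3 * c ^ 3 * t ^ 2 + 24 * a ^ 3 * c ^ 2 * t ^ 3 + 28 * a ^ 3
      * c * t ^ 4 - 52 * a ^ 3 * t ^ 5 - 32 * a ^ 2 * Q ^ 3 * t ^ 3 + 112 * a ^ 2 * Q ^ 2 * t ^
      4 + 16 * a ^ 2 * Q * c ^ 2 * t ^ 3 - 160 * a ^ 2 * Q * c * t ^ 4 + 136 * a ^ 2 * Q * t ^ 5
      - 4 * a ^ 2 * c ^ 3 * t ^ 3 + 64 * a ^ 2 * c ^ 2 * t ^ 4 - 44 * a ^ 2 * c * t ^ 5 - 24 * a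
      ^ 2 * t ^ 6 - 64 * a * Q ^ 3 * t ^ 4 + 80 * a * Q ^ 2 * c * t ^ 4 - 64 * a * Q ^ 2 * t ^ 5
      - 56 * a * Q * c ^ 2 * t ^ 4 + 64 * a * Q * t ^ 6 + 16 * a * c ^ 3 * t ^ 4 + 24 * a * c ^
      2 * t ^ 5 - 40 * a * c * t ^ 6 + 32 * Q ^ 2 * c * t ^ 5 - 32 * Q ^ 2 * t ^ 6 - 48 * Q * c
      ^ 2 * t ^ 5 + 48 * Q * c * t ^ 6 + 16 * c ^ 3 * t ^ 5 - 16 * c ^ 2 * t ^ 6) * E1 +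
      (-8 * a ^ 4 * Q * c * t ^ 2 + 24 * a ^ 3 * Q ^ 2 * c * t ^ 2 - 12 * a ^ 3 * Q * c ^ 2 * t
      ^ 2 - 28 * a ^ 3 * Q * c * t ^ 3 + 8 * a ^ 3 * c ^ 2 * t ^ 3 - 8 * a ^ 3 * c * t ^ 4 + 80
      * a ^ 2 * Q ^ 2 * c * t ^ 3 - 48 * a ^ 2 * Q * c ^ 2 * t ^ 3 - 8 * a ^ 2 * Q * c * t ^ 4 +
      4 * a ^ 2 * c ^ 3 * t ^ 3 + 24 * a ^ 2 * c ^ 2 * t ^ 4 - 28 * a ^ 2 * c * t ^ 5 + 64 * a *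
      Q ^ 2 * c * t ^ 4 - 56 * a * Q * c ^ 2 * t ^ 4 + 32 * a * Q * c * t ^ 5 + 16 * a * c ^ 3 *
      t ^ 4 + 8 * a * c ^ 2 * t ^ 5 - 24 * a * c * t ^ 6 - 16 * Q * c ^ 2 * t ^ 5 + 16 * Q * c *
      t ^ 6 + 16 * c ^ 3 * t ^ 5 - 16 * c ^ 2 * t ^ 6) * E2 +
      (4 * a ^ 5 * Q ^ 2 * c - 4 * a ^ 5 * Q ^ 2 * t - 4 * a ^ 5 * Q * c ^ 2 + 8 * a ^ 5 * Q * c
      * t - 4 * a ^ 5 * Q * t ^ 2 + 1 * a ^ 5 * c ^ 3 - 1 * a ^ 5 * c ^ 2 * t - 1 * a ^ 5 * c *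
      t ^ 2 + 1 * a ^ 5 * t ^ 3 + 20 * a ^ 4 * Q ^ 2 * c * t - 36 * a ^ 4 * Q ^ 2 * t ^ 2 - 26 *
      a ^ 4 * Q * c ^ 2 * t + 88 * a ^ 4 * Q * c * t ^ 2 - 54 * a ^ 4 * Q * t ^ 3 + 8 * a ^ 4 *
      c ^ 3 * t - 24 * a ^ 4 * c ^ 2 * t ^ 2 + 12 * a ^ 4 * c * t ^ 3 + 4 * a ^ 4 * t ^ 4 + 16 *
      a ^ 3 * Q ^ 3 * t ^ 2 - 16 * a ^ 3 * Q ^ 2 * c * t ^ 2 - 56 * a ^ 3 * Q ^ 2 * t ^ 3 - 28 *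
      a ^ 3 * Q * c ^ 2 * t ^ 2 + 264 * a ^ 3 * Q * c * t ^ 3 - 236 * a ^ 3 * Q * t ^ 4 + 16 * a
      ^ 3 * c ^ 3 * t ^ 2 - 112 * a ^ 3 * c ^ 2 * t ^ 3 + 136 * a ^ 3 * c * t ^ 4 - 32 * a ^ 3 *
      t ^ 5 + 48 * a ^ 2 * Q ^ 3 * t ^ 3 - 176 * a ^ 2 * Q ^ 2 * c * t ^ 3 + 136 * a ^ 2 * Q ^ 2
      * t ^ 4 + 104 * a ^ 2 * Q * c ^ 2 * t ^ 3 + 152 * a ^ 2 * Q * c * t ^ 4 - 320 * a ^ 2 * Q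
      * t ^ 5 - 16 * a ^ 2 * c ^ 3 * t ^ 3 - 144 * a ^ 2 * c ^ 2 * t ^ 4 + 304 * a ^ 2 * c * t ^
      5 - 136 * a ^ 2 * t ^ 6 - 192 * a * Q ^ 2 * c * t ^ 4 + 304 * a * Q ^ 2 * t ^ 5 + 240 * a
      * Q * c ^ 2 * t ^ 4 - 272 * a * Q * c * t ^ 5 - 16 * a * Q * t ^ 6 - 80 * a * c ^ 3 * t ^
      4 + 48 * a * c ^ 2 * t ^ 5 + 128 * a * c * t ^ 6 - 96 * a * t ^ 7 - 64 * Q ^ 3 * t ^ 5 +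
      64 * Q ^ 2 * t ^ 6 + 128 * Q * c ^ 2 * t ^ 5 - 192 * Q * c * t ^ 6 + 64 * Q * t ^ 7 - 64 *
      c ^ 3 * t ^ 5 + 128 * c ^ 2 * t ^ 6 - 64 * c * t ^ 7) * E3 +
      (4 * a ^ 5 * Q ^ 2 * c - 4 * a ^ 5 * Q ^ 2 * t - 4 * a ^ 5 * Q * c ^ 2 + 8 * a ^ 5 * Q * c
      * t - 4 * a ^ 5 * Q * t ^ 2 + 1 * a ^ 5 * c ^ 3 - 5 * a ^ 5 * c ^ 2 * t + 7 * a ^ 5 * c *
      t ^ 2 - 3 * a ^ 5 * t ^ 3 + 20 * a ^ 4 * Q ^ 2 * c * t - 36 * a ^ 4 * Q ^ 2 * t ^ 2 - 14 *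
      a ^ 4 * Q * c ^ 2 * t + 56 * a ^ 4 * Q * c * t ^ 2 - 34 * a ^ 4 * Q * t ^ 3 + 2 * a ^ 4 *
      c ^ 3 * t - 18 * a ^ 4 * c ^ 2 * t ^ 2 + 42 * a ^ 4 * c * t ^ 3 - 26 * a ^ 4 * t ^ 4 + 16
      * a ^ 3 * Q ^ 3 * t ^ 2 - 8 * a ^ 3 * Q ^ 2 * c * t ^ 2 - 64 * a ^ 3 * Q ^ 2 * t ^ 3 + 8 *
      a ^ 3 * Q * c ^ 2 * t ^ 2 + 72 * a ^ 3 * Q * c * t ^ 3 - 48 * a ^ 3 * Q * t ^ 4 - 4 * a ^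
      3 * c ^ 3 * t ^ 2 + 44 * a ^ 3 * c * t ^ 4 - 48 * a ^ 3 * t ^ 5 + 48 * a ^ 2 * Q ^ 3 * t ^
      3 - 96 * a ^ 2 * Q ^ 2 * c * t ^ 3 - 8 * a ^ 2 * Q ^ 2 * t ^ 4 + 56 * a ^ 2 * Q * c ^ 2 *
      t ^ 3 - 24 * a ^ 2 * Q * c * t ^ 4 + 32 * a ^ 2 * Q * t ^ 5 - 8 * a ^ 2 * c ^ 3 * t ^ 3 +
      32 * a ^ 2 * c ^ 2 * t ^ 4 - 32 * a ^ 2 * c * t ^ 5 + 32 * a * Q ^ 3 * t ^ 4 - 64 * a * Q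
      ^ 2 * c * t ^ 4 + 32 * a * Q * c ^ 2 * t ^ 4) * E4
  have k3 : 4 * a * t * t * qc a Q c t * h = 0 := by
    unfold qc
    linear_combination
      (4 * a ^ 5 * Q * c * t - 4 * a ^ 5 * Q * t ^ 2 - 2 * a ^ 5 * c ^ 2 * t + 4 * a ^ 5 * c * t
      ^ 2 - 2 * a ^ 5 * t ^ 3 - 8 * a ^ 4 * Q ^ 2 * c * t + 8 * a ^ 4 * Q ^ 2 * t ^ 2 + 8 * a ^
      4 * Q * c ^ 2 * t + 4 * a ^ 4 * Q * c * t ^ 2 - 28 * a ^ 4 * Q * t ^ 3 - 2 * a ^ 4 * c ^ 3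
      * t - 4 * a ^ 4 * c ^ 2 * t ^ 2 + 18 * a ^ 4 * c * t ^ 3 - 12 * a ^ 4 * t ^ 4 - 32 * a ^ 3
      * Q ^ 2 * c * t ^ 2 + 80 * a ^ 3 * Q ^ 2 * t ^ 3 + 32 * a ^ 3 * Q * c ^ 2 * t ^ 2 - 56 * a
      ^ 3 * Q * c * t ^ 3 - 24 * a ^ 3 * Q * t ^ 4 - 8 * a ^ 3 * c ^ 3 * t ^ 2 + 12 * a ^ 3 * c
      ^ 2 * t ^ 3 + 4 * a ^ 3 * c * t ^ 4 - 32 * a ^ 2 * Q ^ 3 * t ^ 3 - 16 * a ^ 2 * Q ^ 2 * c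
      * t ^ 3 + 128 * a ^ 2 * Q ^ 2 * t ^ 4 + 32 * a ^ 2 * Q * c ^ 2 * t ^ 3 - 72 * a ^ 2 * Q *
      c * t ^ 4 - 48 * a ^ 2 * Q * t ^ 5 - 8 * a ^ 2 * c ^ 3 * t ^ 3 + 16 * a ^ 2 * c ^ 2 * t ^
      4 - 64 * a * Q ^ 3 * t ^ 4 + 16 * a * Q ^ 2 * c * t ^ 4 + 128 * a * Q ^ 2 * t ^ 5 + 8 * a
      * Q * c ^ 2 * t ^ 4 - 48 * a * Q * c * t ^ 5 - 64 * Q ^ 3 * t ^ 5 + 32 * Q ^ 2 * c * t ^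
      5) * E1 +
      (-8 * a ^ 4 * Q * c * t ^ 2 + 24 * a ^ 3 * Q ^ 2 * c * t ^ 2 - 12 * a ^ 3 * Q * c ^ 2 * t
      ^ 2 - 12 * a ^ 3 * Q * c * t ^ 3 + 64 * a ^ 2 * Q ^ 2 * c * t ^ 3 - 32 * a ^ 2 * Q * c ^ 2
      * t ^ 3 + 8 * a ^ 2 * Q * c * t ^ 4 + 64 * a * Q ^ 2 * c * t ^ 4 - 24 * a * Q * c ^ 2 * t
      ^ 4 + 16 * a * Q * c * t ^ 5 + 32 * Q ^ 2 * c * t ^ 5) * E2 +
      (4 * a ^ 5 * Q ^ 2 * c - 4 * a ^ 5 * Q ^ 2 * t - 4 * a ^ 5 * Q * c ^ 2 + 8 * a ^ 5 * Q * c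
      * t - 4 * a ^ 5 * Q * t ^ 2 + 1 * a ^ 5 * c ^ 3 - 1 * a ^ 5 * c ^ 2 * t - 1 * a ^ 5 * c *
      t ^ 2 + 1 * a ^ 5 * t ^ 3 + 20 * a ^ 4 * Q ^ 2 * c * t - 36 * a ^ 4 * Q ^ 2 * t ^ 2 - 26 *
      a ^ 4 * Q * c ^ 2 * t + 72 * a ^ 4 * Q * c * t ^ 2 - 38 * a ^ 4 * Q * t ^ 3 + 8 * a ^ 4 *
      c ^ 3 * t - 16 * a ^ 4 * c ^ 2 * t ^ 2 + 4 * a ^ 4 * c * t ^ 3 + 4 * a ^ 4 * t ^ 4 + 16 *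
      a ^ 3 * Q ^ 3 * t ^ 2 - 72 * a ^ 3 * Q ^ 2 * t ^ 3 - 44 * a ^ 3 * Q * c ^ 2 * t ^ 2 + 168
      * a ^ 3 * Q * c * t ^ 3 - 92 * a ^ 3 * Q * t ^ 4 + 20 * a ^ 3 * c ^ 3 * t ^ 2 - 52 * a ^ 3
      * c ^ 2 * t ^ 3 + 36 * a ^ 3 * c * t ^ 4 - 12 * a ^ 3 * t ^ 5 + 48 * a ^ 2 * Q ^ 3 * t ^ 3
      - 80 * a ^ 2 * Q ^ 2 * c * t ^ 3 - 56 * a ^ 2 * Q ^ 2 * t ^ 4 - 8 * a ^ 2 * Q * c ^ 2 * t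
      ^ 3 + 104 * a ^ 2 * Q * c * t ^ 4 - 16 * a ^ 2 * Q * t ^ 5 + 16 * a ^ 2 * c ^ 3 * t ^ 3 -
      40 * a ^ 2 * c ^ 2 * t ^ 4 + 16 * a ^ 2 * c * t ^ 5 + 64 * a * Q ^ 3 * t ^ 4 - 96 * a * Q
      ^ 2 * c * t ^ 4 - 80 * a * Q ^ 2 * t ^ 5 + 16 * a * Q * c ^ 2 * t ^ 4 + 32 * a * Q * c * t
      ^ 5 + 64 * Q ^ 3 * t ^ 5 - 64 * Q ^ 2 * c * t ^ 5) * E3 +
      (4 * a ^ 5 * Q ^ 2 * c - 4 * a ^ 5 * Q ^ 2 * t - 4 * a ^ 5 * Q * c ^ 2 + 8 * a ^ 5 * Q * c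
      * t - 4 * a ^ 5 * Q * t ^ 2 + 1 * a ^ 5 * c ^ 3 - 5 * a ^ 5 * c ^ 2 * t + 7 * a ^ 5 * c *
      t ^ 2 - 3 * a ^ 5 * t ^ 3 + 20 * a ^ 4 * Q ^ 2 * c * t - 36 * a ^ 4 * Q ^ 2 * t ^ 2 - 14 *
      a ^ 4 * Q * c ^ 2 * t + 56 * a ^ 4 * Q * c * t ^ 2 - 34 * a ^ 4 * Q * t ^ 3 + 2 * a ^ 4 *
      c ^ 3 * t - 18 * a ^ 4 * c ^ 2 * t ^ 2 + 34 * a ^ 4 * c * t ^ 3 - 18 * a ^ 4 * t ^ 4 + 16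
      * a ^ 3 * Q ^ 3 * t ^ 2 - 8 * a ^ 3 * Q ^ 2 * c * t ^ 2 - 64 * a ^ 3 * Q ^ 2 * t ^ 3 + 8 *
      a ^ 3 * Q * c ^ 2 * t ^ 2 + 56 * a ^ 3 * Q * c * t ^ 3 - 64 * a ^ 3 * Q * t ^ 4 - 4 * a ^
      3 * c ^ 3 * t ^ 2 + 12 * a ^ 3 * c * t ^ 4 + 48 * a ^ 2 * Q ^ 3 * t ^ 3 - 64 * a ^ 2 * Q ^
      2 * c * t ^ 3 - 8 * a ^ 2 * Q ^ 2 * t ^ 4 + 40 * a ^ 2 * Q * c ^ 2 * t ^ 3 + 8 * a ^ 2 * Q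
      * c * t ^ 4 - 96 * a ^ 2 * Q * t ^ 5 - 8 * a ^ 2 * c ^ 3 * t ^ 3 + 16 * a ^ 2 * c ^ 2 * t
      ^ 4 + 32 * a * Q ^ 3 * t ^ 4 - 64 * a * Q ^ 2 * c * t ^ 4 + 64 * a * Q ^ 2 * t ^ 5 + 32 *
      a * Q * c ^ 2 * t ^ 4 - 64 * a * Q * c * t ^ 5) * E4
  have ha' := ha.ne'
  have ht' := ht.ne'
  refine ⟨?_, ?_, ?_, ?_⟩
  · simpa [ha', ht', hq] using k0
  · simpa [ha', ht', hq] using k1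
  · simpa [ha', ht', hq] using k2
  · simpa [ha', ht', hq] using k3

/-- **L_LIN** in the variables `a = P + Q`, `Q`, `c = Q + E`, `t = Q + M + E`. -/
theorem lin_aux {a Q c t : ℝ} (ha : 0 < a) (ht : 0 < t) (hq : qc a Q c t ≠ 0) (w : Fin 6 → ℝ)
    {b u v s : ℝ} (hs : s = a + t) (hb : b = a + 2 * t) (hu : u = 2 * s) (hv : v = 2 * t)
    {P M al : ℝ} (hP : P = a - Q) (hM : M = t - c) (hal : al = a - 2 * Q + c)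
    (h0 : w 0 * (b * u * v * s * t) + a * (al * (w 2 - w 0 - w 1) * (v * s * t) +
      c * (w 1 - w 0 - w 3) * (u * s * t) + M * (w 4 - w 5 - w 0) * (b * u * v)) = 0)
    (h1 : w 1 * (a * u * v * s * t) + b * (al * (w 2 - w 0 - w 1) * (v * s * t) -
      c * (w 1 - w 0 - w 3) * (u * s * t) - M * (w 1 - w 4 - w 5) * (a * u * v)) = 0)
    (h2 : w 2 * (a * b * s ^ 2) - u * (2 * Q * (w 2 - w 0 - w 1) * s ^ 2 +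
      M * (w 2 - 2 * w 4) * (a * b)) = 0)
    (h3 : w 3 * (a * b * t ^ 2) + v * (2 * P * (w 1 - w 0 - w 3) * t ^ 2 -
      M * (w 3 - 2 * w 5) * (a * b)) = 0)
    (h4 : 2 * s * t * a * b * w 4 + al * (w 2 - 2 * w 4) * (t * a * b) +
      2 * Q * s ^ 2 * (a * (w 1 - w 4 - w 5) - b * (w 4 - w 5 - w 0)) = 0)
    (h5 : 2 * s * t * a * b * w 5 + c * (w 3 - 2 * w 5) * (s * a * b) +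
      2 * P * t ^ 2 * (a * (w 1 - w 4 - w 5) + b * (w 4 - w 5 - w 0)) = 0) : w = 0 := by
  have ps : 0 < s := by rw [hs]; positivity
  have pb : 0 < b := by rw [hb]; positivity
  have pu : 0 < u := by rw [hu]; positivity
  have pv : 0 < v := by rw [hv]; positivity
  obtain ⟨e, he⟩ : ∃ e, w 2 - w 0 - w 1 = a * b * u * e :=
    ⟨(w 2 - w 0 - w 1) / (a * b * u), by field_simp⟩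
  obtain ⟨f, hf⟩ : ∃ f, w 1 - w 0 - w 3 = a * b * v * f :=
    ⟨(w 1 - w 0 - w 3) / (a * b * v), by field_simp⟩
  obtain ⟨g, hg⟩ : ∃ g, w 4 - w 5 - w 0 = s * t * a * g :=
    ⟨(w 4 - w 5 - w 0) / (s * t * a), by field_simp⟩
  obtain ⟨h, hh⟩ : ∃ h, w 1 - w 4 - w 5 = s * t * b * h :=
    ⟨(w 1 - w 4 - w 5) / (s * t * b), by field_simp⟩
  have d5 : w 2 - 2 * w 4 = s * (2 * a * b * e + t * b * h - t * a * g) := by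
    have : w 2 - 2 * w 4 = (w 2 - w 0 - w 1) + (w 1 - w 4 - w 5) - (w 4 - w 5 - w 0) := by ring
    rw [this, he, hg, hh, hu]; ring
  have d6 : w 3 - 2 * w 5 = t * (s * a * g + s * b * h - 2 * a * b * f) := by
    have : w 3 - 2 * w 5 = (w 4 - w 5 - w 0) + (w 1 - w 4 - w 5) - (w 1 - w 0 - w 3) := by ring
    rw [this, hf, hg, hh, hv]; ring
  rw [he, hf, hg] at h0
  rw [he, hf, hh] at h1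
  rw [he, d5] at h2
  rw [hf, d6] at h3
  rw [d5, hh, hg] at h4
  rw [d6, hh, hg] at h5
  have w0 : w 0 = -(a ^ 2 * (al * e + c * f + M * g)) := by
    refine mul_right_cancel₀ (b := b * u * v * s * t) (by positivity) ?_
    linear_combination h0
  have w1 : w 1 = -(b ^ 2 * (al * e - c * f - M * h)) := by
    refine mul_right_cancel₀ (b := a * u * v * s * t) (by positivity) ?_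
    linear_combination h1
  have w2 : w 2 = 8 * Q * s ^ 2 * e + 2 * M * (2 * a * b * e + t * b * h - t * a * g) := by
    refine mul_right_cancel₀ (b := a * b * s ^ 2) (by positivity) ?_
    rw [hu] at h2
    linear_combination h2
  have w3 : w 3 = -(8 * P * t ^ 2 * f) + 2 * M * (s * a * g + s * b * h - 2 * a * b * f) := by
    refine mul_right_cancel₀ (b := a * b * t ^ 2) (by positivity) ?_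
    rw [hv] at h3
    linear_combination h3
  have w4 : 2 * w 4 = -(al * (2 * a * b * e + t * b * h - t * a * g)) -
      2 * Q * s ^ 2 * (h - g) := by
    refine mul_right_cancel₀ (b := s * t * a * b) (by positivity) ?_
    linear_combination h4
  have w5 : 2 * w 5 = -(c * (s * a * g + s * b * h - 2 * a * b * f)) -
      2 * P * t ^ 2 * (g + h) := by
    refine mul_right_cancel₀ (b := s * t * a * b) (by positivity) ?_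
    linear_combination h5
  have F1 : 2 * (a * b * u * e) = 2 * w 2 - 2 * w 0 - 2 * w 1 := by linear_combination -2 * he
  have F2 : 2 * (a * b * v * f) = 2 * w 1 - 2 * w 0 - 2 * w 3 := by linear_combination -2 * hf
  have F3 : 2 * (s * t * a * g) = 2 * w 4 - 2 * w 5 - 2 * w 0 := by linear_combination -2 * hg
  have F4 : 2 * (s * t * b * h) = 2 * w 1 - 2 * w 4 - 2 * w 5 := by linear_combination -2 * hh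
  rw [w0, w1, w2] at F1
  rw [w0, w1, w3] at F2
  rw [w4, w5, w0] at F3
  rw [w4, w5, w1] at F4
  subst hu hv hb hs hP hM hal
  obtain ⟨z1, z2, z3, z4⟩ := sys_zero ha ht hq (e := e) (f := f) (g := g) (h := h)
    (by linear_combination F1) (by linear_combination F2) (by linear_combination F3)
    (by linear_combination F4)
  rw [z1, z2, z3] at w0
  rw [z1, z2, z4] at w1
  rw [z1, z3, z4] at w2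
  rw [z2, z3, z4] at w3
  rw [z1, z3, z4] at w4
  rw [z2, z3, z4] at w5
  funext i
  fin_cases i
  · show w 0 = 0
    rw [w0]; ring
  · show w 1 = 0
    rw [w1]; ring
  · show w 2 = 0
    rw [w2]; ring
  · show w 3 = 0
    rw [w3]; ring
  · show w 4 = 0
    linarith
  · show w 5 = 0
    linarith

/-- **L_LIN**. -/
theorem l_lin : L_LIN := by
  intro P Q M E w hP hQ hM hPE hQE hq a b u v s t ha hs ht hb hu hv h0 h1 h2 h3 h4 h5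
  refine lin_aux (a := a) (Q := Q) (c := Q + E) (t := t) (b := b) (u := u) (v := v) (s := s)
    (P := P) (M := M) (al := P + E) (by rw [ha]; positivity) (by rw [ht]; linarith)
    (by rw [ha, ht]; exact hq) w (by rw [ha, hs, ht]; ring) (by rw [ha, hb, ht]; ring)
    (by rw [hu, hs]; ring) (by rw [hv, ht]; ring) (by rw [ha]; ring) (by rw [ht]; ring)
    (by rw [ha]; ring) h0 h1 h2 h3 h4 h5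

end Pool.Agent.Helper58.DH
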