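import Pool.Agent.Helper87.DH.Q_PHI
import Pool.Agent.Helper82.DH.Q_IDN
import Pool.Agent.Helper41.DH.Q_QTI
import Pool.Agent.Helper64.DH.Q_LOW
import Pool.Agent.Helper93.DH.Q_UPP
import Pool.Agent.Helper12.DH.H_EQN
import Pool.Agent.Helper46.DH.H_BND
import Pool.Agent.Helper86.DH.N_NON
import Pool.Agent.Helper30.DH.K_ALL
import Pool.Agent.Helper24.DH.H_DEG
import Pool.Agent.Helper74.DH.L_EQV
import Pool.Agent.Helper58.DH.LLIN
import Pool.Agent.Helper16.DH.L_DET
import Pool.Agent.Helper58.DH.CPOS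
import Pool.Agent.Helper33.DH.L_SGN
import Pool.Agent.Helper18.DH.F_PAR
import Pool.Agent.Helper59.DH.F_POS
import Pool.Agent.Helper8.DH.F_RIC
import Pool.Agent.Helper5.DH.F_INT
import Pool.Agent.Helper48.DH.S_ST
import Pool.Agent.Helper30.DH.H_DEG2
import Pool.Agent.Helper74.DH.F_PAR2
import Pool.Agent.Helper54.DH.F_POS2
import Pool.Agent.Helper86.DH.F_SYM
import Pool.Agent.Helper12.DH.F_ALL
import Pool.Agent.Helper58.DG.Main

/-!
# Project DH (MP_06d934_gt): assembly

The theorem at the level of the equations for the families B, C, D, without hypotheses.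
-/

set_option autoImplicit false

namespace Pool.Agent.Helper58.DH

/-- The bound for the solutions. -/
theorem h_bnd : H_BND :=
  _root_.Pool.Agent.Helper46.DH.h_bnd
    (_root_.Pool.Agent.Helper41.DH.q_qti _root_.Pool.Agent.Helper87.DH.q_phi
      _root_.Pool.Agent.Helper82.DH.q_idn)
    (_root_.Pool.Agent.Helper64.DH.q_low _root_.Pool.Agent.Helper87.DH.q_phi
      _root_.Pool.Agent.Helper82.DH.q_idn)
    _root_.Pool.Agent.Helper93.DH.q_upp _root_.Pool.Agent.Helper12.DH.h_eqn

/-- The sign of the determinant. -/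
theorem l_sgn : L_SGN :=
  _root_.Pool.Agent.Helper33.DH.l_sgn (_root_.Pool.Agent.Helper16.DH.l_det l_lin) c_pos

/-- The theorem for all sizes, at the level of the equations. -/
theorem f_all : F_ALL :=
  _root_.Pool.Agent.Helper12.DH.f_all
    (_root_.Pool.Agent.Helper5.DH.f_int
      (_root_.Pool.Agent.Helper18.DH.f_par
        (_root_.Pool.Agent.Helper24.DH.h_deg _root_.Pool.Agent.Helper58.DG.d_deg
          _root_.Pool.Agent.Helper12.DH.h_eqn h_bnd _root_.Pool.Agent.Helper86.DH.n_non)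
        _root_.Pool.Agent.Helper30.DH.k_all _root_.Pool.Agent.Helper74.DH.l_eqv l_sgn)
      (_root_.Pool.Agent.Helper59.DH.f_pos c_pos) _root_.Pool.Agent.Helper8.DH.f_ric)
    (_root_.Pool.Agent.Helper74.DH.f_par2
      (_root_.Pool.Agent.Helper30.DH.h_deg2 _root_.Pool.Agent.Helper58.DG.d_deg
        _root_.Pool.Agent.Helper12.DH.h_eqn h_bnd _root_.Pool.Agent.Helper86.DH.n_non
        _root_.Pool.Agent.Helper48.DH.s_st)
      _root_.Pool.Agent.Helper30.DH.k_all _root_.Pool.Agent.Helper74.DH.l_eqv l_sgn)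
    (_root_.Pool.Agent.Helper54.DH.f_pos2 c_pos) _root_.Pool.Agent.Helper8.DH.f_ric
    _root_.Pool.Agent.Helper86.DH.f_sym

end Pool.Agent.Helper58.DH
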